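import Pool.Agent.NFF.Main

/-!
# NIP fields which are finitely generated over a subfield
-/

set_option autoImplicit false

open FirstOrder FirstOrder.Language FirstOrder.Ring Polynomial

universe u

/-- Let `K` be an NIP field of characteristic `0` which is generated as a field by a subfield `F` and
a finite set `S`, and contains an element which is transcendental over `F`. Then `K` is a finite
extension of `F(u)` for some `u ∈ K` which is transcendental over `F`, and `F` is algebraically
closed or its algebraic closure has degree `2` over `F`. -/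
theorem Pool.Agent.NFF.function_fields
    (K : Type u) [Field K] [CharZero K] [CompatibleRing K]
    (hK : ∀ (m k : ℕ) (φ : Language.ring.Formula (Fin m ⊕ Fin k)),
      ∃ n : ℕ, ∀ (a : Fin n → Fin m → K) (b : Finset (Fin n) → Fin k → K),
        ∃ (i : Fin n) (J : Finset (Fin n)),
          ¬ (φ.Realize (Sum.elim (a i) (b J)) ↔ i ∈ J))
    (F : Subfield K) (S : Finset K) (hS : Subfield.closure ((F : Set K) ∪ (S : Set K)) = ⊤)
    (hx : ∃ x : K, Transcendental F x) :
    (∃ u : K, Transcendental F u ∧ FiniteDimensional (IntermediateField.adjoin F {u}) K) ∧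
      (IsAlgClosed F ∨ Module.finrank F (AlgebraicClosure F) = 2) := by
  have hch : CharZero F := (algebraMap F K).charZero
  have hS' : IntermediateField.adjoin F (S : Set K) = ⊤ := by
    rw [eq_top_iff]
    intro x _
    have h1 : x ∈ Subfield.closure ((F : Set K) ∪ (S : Set K)) := by
      rw [hS]
      trivial
    have h2 : Subfield.closure ((F : Set K) ∪ (S : Set K)) ≤
        (IntermediateField.adjoin F (S : Set K)).toSubfield := by
      rw [Subfield.closure_le]
      rintro y (hy | hy)
      · exact (IntermediateField.adjoin F (S : Set K)).algebraMap_mem ⟨y, hy⟩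
      · exact IntermediateField.subset_adjoin F _ hy
    exact h2 h1
  have hna : ¬ Algebra.IsAlgebraic F K := by
    intro h
    obtain ⟨x, hx⟩ := hx
    exact hx (Algebra.IsAlgebraic.isAlgebraic x)
  obtain ⟨u, hu, hfd⟩ := Pool.Agent.NFF.trdeg_one (F := F) hK S hS' hna
  exact ⟨⟨u, hu, hfd⟩, Pool.Agent.NFF.constant (F := F) hK u hu⟩
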