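import Pool.Agent.NFF.Irr
import Pool.Agent.NIPFields.LU.Final

/-!
# Non-powers in large cyclotomic extensions (package NFF-Closed)
-/

set_option autoImplicit false

namespace Pool.Agent.NFF

open Polynomial

universe u

/-- PROOF. By `exists_not_power_root` (`NIPFields`, used in `LU/Final.lean`) there are a finite
extension `L` of `F` with a square root of `-1` and a prime `ℓ` (called `q` there) and `α ∈ L`
which is no `ℓ`-th power. Let `F₁` be the `4 ℓ ^ a`-th cyclotomic extension of `L`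
(`CyclotomicField`, characteristic `0`), finite over `L` and over `F`, `ξ` its primitive root
(`IsCyclotomicExtension.zeta`). If all elements of `F₁` were `ℓ`-th powers, then for every `m`
there would be `β ∈ F₁` with `β ^ (ℓ ^ m) = α`, but `X ^ (ℓ ^ m) - C α` is irreducible over `L`
(`irr_of_not_pow`), thus the minimal polynomial of `β`, and `ℓ ^ m ≤ [F₁ : L]`
(`minpoly.natDegree_le`), a contradiction for large `m`. So some `α' ∈ F₁` is no `ℓ`-th power. -/
theorem exists_ext_not_pow {F : Type u} [Field F] [CharZero F] (h1 : ¬ IsAlgClosed F)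
    (h2 : Module.finrank F (AlgebraicClosure F) ≠ 2) :
    ∃ ℓ : ℕ, ℓ.Prime ∧ ∀ a : ℕ, ∃ (F₁ : Type u) (_ : Field F₁) (_ : Algebra F F₁)
      (_ : FiniteDimensional F F₁) (ξ α : F₁), IsPrimitiveRoot ξ (4 * ℓ ^ a) ∧
        ∀ w : F₁, w ^ ℓ ≠ α := by
  classical
  rcases NIPFields.LZ.exists_not_power_root (K := F) with
    h | h | ⟨L, _, _, ℓ, hfd, hi, hℓ, -, α, hα⟩
  · exact absurd h h1
  · exact absurd h h2
  have hL : CharZero L := charZero_of_injective_algebraMap (algebraMap F L).injective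
  refine ⟨ℓ, hℓ, fun a => ?_⟩
  have hn0 : 4 * ℓ ^ a ≠ 0 := Nat.mul_ne_zero (by norm_num) (pow_ne_zero _ hℓ.ne_zero)
  have hne : NeZero (4 * ℓ ^ a) := ⟨hn0⟩
  have hneL : NeZero (((4 * ℓ ^ a : ℕ) : L)) := ⟨Nat.cast_ne_zero.2 hn0⟩
  obtain ⟨F₁, _, _, hcyc⟩ : ∃ (F₁ : Type u) (_ : Field F₁) (_ : Algebra L F₁),
      IsCyclotomicExtension {4 * ℓ ^ a} L F₁ :=
    ⟨CyclotomicField (4 * ℓ ^ a) L, inferInstance, inferInstance, inferInstance⟩
  have hfd1 : FiniteDimensional L F₁ := IsCyclotomicExtension.finiteDimensional {4 * ℓ ^ a} L F₁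
  let _ : Algebra F F₁ := ((algebraMap L F₁).comp (algebraMap F L)).toAlgebra
  have htower : IsScalarTower F L F₁ := IsScalarTower.of_algebraMap_eq fun _ => rfl
  have hfd2 : FiniteDimensional F F₁ := FiniteDimensional.trans F L F₁
  by_contra hcon
  have hall : ∀ x : F₁, ∃ w : F₁, w ^ ℓ = x := by
    intro x
    by_contra hx
    apply hcon
    exact ⟨F₁, inferInstance, inferInstance, hfd2, IsCyclotomicExtension.zeta (4 * ℓ ^ a) L F₁, x,
      IsCyclotomicExtension.zeta_spec (4 * ℓ ^ a) L F₁, fun w hw => hx ⟨w, hw⟩⟩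
  have hpow : ∀ m : ℕ, ∃ β : F₁, β ^ ℓ ^ m = algebraMap L F₁ α := by
    intro m
    induction m with
    | zero => exact ⟨algebraMap L F₁ α, by rw [pow_zero, pow_one]⟩
    | succ m ih =>
      obtain ⟨β, hβ⟩ := ih
      obtain ⟨w, hw⟩ := hall β
      exact ⟨w, by rw [pow_succ', pow_mul, hw, hβ]⟩
  set d := Module.finrank L F₁ with hd
  obtain ⟨β, hβ⟩ := hpow d
  have hirr := irr_of_not_pow hℓ hi (fun w hw => hα w hw.symm) d
  have hmonic : (X ^ ℓ ^ d - C α : L[X]).Monic :=
    monic_X_pow_sub_C α (pow_ne_zero _ hℓ.ne_zero)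
  have heq : (X ^ ℓ ^ d - C α : L[X]) = minpoly L β := by
    refine minpoly.eq_of_irreducible_of_monic hirr ?_ hmonic
    rw [map_sub, map_pow, aeval_X, aeval_C, hβ, sub_self]
  have hdeg : (minpoly L β).natDegree ≤ d := minpoly.natDegree_le β
  rw [← heq, natDegree_X_pow_sub_C] at hdeg
  exact absurd hdeg (not_le.2 (Nat.lt_pow_self hℓ.one_lt))

end Pool.Agent.NFF
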