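import Mathlib

/-!
# Extension of the constant field (package NFF-Comp)
-/

set_option autoImplicit false

namespace Pool.Agent.NFF

open Polynomial
open scoped IntermediateField TensorProduct

universe u

/-- PROOF. Let `Ω` be an algebraic closure of `K`, `σ : F₁ →ₐ[F] Ω` (`IsAlgClosed.lift`; `F₁` is
algebraic over `F`), `K₁ = IntermediateField.adjoin K (Set.range σ)`. It is finite over `K`: if
`b` is a basis of `F₁` over `F`, `K₁ = adjoin K {σ (b i)}` and the `σ (b i)` are algebraic over
`F`, hence over `K` (`IntermediateField.finiteDimensional_adjoin`). `K₁` is an `F₁`-algebra by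
`σ`. Put `u₁ = algebraMap K K₁ u`. It is transcendental over `F₁`: it is so over `F`
(`Transcendental` is preserved by the injection `K → K₁`), and `F₁` is algebraic over `F`
(`IsAlgebraic.restrictScalars` with the tower `F, F₁, K₁`). Let `v` be a basis of `K` over `F⟮u⟯`,
`N` its length. The `F₁⟮u₁⟯`-span `V` of the `v i` in `K₁` is all of `K₁`: `V` contains `K` (an
element is `∑ k i * v i` with `k i ∈ F⟮u⟯`, whose image is in `F₁⟮u₁⟯`), and `K₁` is spanned over
`K` by the products of the elements of `σ F₁`, that is by `σ F₁` itself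
(`IntermediateField.adjoin_algebraic_toSubalgebra` / `Algebra.adjoin` of a subring), and `V` is
closed under multiplication by `σ F₁ ⊆ F₁⟮u₁⟯`. So `K₁` is finite of degree at most `N` over
`F₁⟮u₁⟯` (`finrank_le_of_span_eq_top` or `Module.Finite.of_surjective` with `Fin N → F₁⟮u₁⟯`). -/
theorem exists_compositum {F K : Type u} [Field F] [Field K] [Algebra F K] (F₁ : Type u)
    [Field F₁] [Algebra F F₁] [FiniteDimensional F F₁] (u : K) (hu : Transcendental F u)
    [FiniteDimensional F⟮u⟯ K] :
    ∃ (K₁ : Type u) (_ : Field K₁) (_ : Algebra K K₁) (_ : Algebra F₁ K₁)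
      (_ : FiniteDimensional K K₁) (u₁ : K₁), Transcendental F₁ u₁ ∧
        ∃ _ : FiniteDimensional F₁⟮u₁⟯ K₁,
          Module.finrank F₁⟮u₁⟯ K₁ ≤ Module.finrank F⟮u⟯ K := by
  have hnt : Nontrivial (TensorProduct F K F₁) := by
    have h1 : Function.Injective
        (Algebra.TensorProduct.includeLeft : K →ₐ[F] TensorProduct F K F₁) :=
      Algebra.TensorProduct.includeLeft_injective (algebraMap F F₁).injective
    exact h1.nontrivial
  obtain ⟨M, hM⟩ := Ideal.exists_maximal (TensorProduct F K F₁)
  letI iF : Field (TensorProduct F K F₁ ⧸ M) := Ideal.Quotient.field M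
  letI iA : Algebra F₁ (TensorProduct F K F₁ ⧸ M) :=
    ((Ideal.Quotient.mk M).comp
      (Algebra.TensorProduct.includeRight : F₁ →ₐ[F] TensorProduct F K F₁).toRingHom).toAlgebra
  have hF₁ : ∀ f : F₁, algebraMap F₁ (TensorProduct F K F₁ ⧸ M) f =
      Ideal.Quotient.mk M (1 ⊗ₜ[F] f) := fun _ => rfl
  have hK : ∀ k : K, algebraMap K (TensorProduct F K F₁ ⧸ M) k =
      Ideal.Quotient.mk M (k ⊗ₜ[F] 1) := fun _ => rfl
  have hF : ∀ y : F, algebraMap F₁ (TensorProduct F K F₁ ⧸ M) (algebraMap F F₁ y) =
      algebraMap K (TensorProduct F K F₁ ⧸ M) (algebraMap F K y) := by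
    intro y
    rw [hF₁, hK]
    congr 1
    rw [Algebra.algebraMap_eq_smul_one, Algebra.algebraMap_eq_smul_one,
      TensorProduct.tmul_smul, TensorProduct.smul_tmul']
  have hfin : FiniteDimensional K (TensorProduct F K F₁ ⧸ M) :=
    Module.Finite.of_surjective (Ideal.Quotient.mkₐ K M).toLinearMap
      (Ideal.Quotient.mkₐ_surjective K M)
  have ht1 : IsScalarTower F F₁ (TensorProduct F K F₁ ⧸ M) := by
    apply IsScalarTower.of_algebraMap_eq
    intro y
    rw [hF]
    rfl
  have ht2 : IsScalarTower F K (TensorProduct F K F₁ ⧸ M) := by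
    apply IsScalarTower.of_algebraMap_eq
    intro y
    rfl
  obtain ⟨u₁, hu₁⟩ : ∃ u₁, u₁ = algebraMap K (TensorProduct F K F₁ ⧸ M) u := ⟨_, rfl⟩
  have htr : Transcendental F₁ u₁ := by
    intro h1
    apply hu
    have h2 : IsAlgebraic F u₁ := h1.restrictScalars F
    rw [hu₁] at h2
    exact (isAlgebraic_algebraMap_iff
      (algebraMap K (TensorProduct F K F₁ ⧸ M)).injective).1 h2
  have hmem : ∀ c ∈ F⟮u⟯, algebraMap K (TensorProduct F K F₁ ⧸ M) c ∈ F₁⟮u₁⟯ := by
    intro c hc
    induction hc using IntermediateField.adjoin_induction with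
    | mem x hx =>
      rw [Set.mem_singleton_iff] at hx
      rw [hx, ← hu₁]
      exact IntermediateField.mem_adjoin_simple_self F₁ u₁
    | algebraMap x =>
      rw [← hF]
      exact IntermediateField.algebraMap_mem _ _
    | add x y _ _ h1 h2 =>
      rw [map_add]
      exact add_mem h1 h2
    | inv x _ h1 =>
      rw [map_inv₀]
      exact inv_mem h1
    | mul x y _ _ h1 h2 =>
      rw [map_mul]
      exact mul_mem h1 h2
  let v := Module.finBasis F⟮u⟯ K
  let w : Fin (Module.finrank F⟮u⟯ K) → (TensorProduct F K F₁ ⧸ M) := fun i =>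
    algebraMap K (TensorProduct F K F₁ ⧸ M) (v i)
  have hspan : Submodule.span F₁⟮u₁⟯ (Set.range w) = ⊤ := by
    rw [eq_top_iff]
    rintro x -
    obtain ⟨r, rfl⟩ := Ideal.Quotient.mk_surjective x
    induction r using TensorProduct.induction_on with
    | zero =>
      rw [map_zero]
      exact Submodule.zero_mem _
    | tmul k f =>
      have e1 : Ideal.Quotient.mk M (k ⊗ₜ[F] f) = algebraMap K (TensorProduct F K F₁ ⧸ M) k *
          algebraMap F₁ (TensorProduct F K F₁ ⧸ M) f := by
        rw [hF₁, hK, ← map_mul, Algebra.TensorProduct.tmul_mul_tmul, mul_one, one_mul]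
      rw [e1, ← v.sum_repr k, map_sum, Finset.sum_mul]
      refine Submodule.sum_mem _ fun i _ => ?_
      have e2 : algebraMap K (TensorProduct F K F₁ ⧸ M) ((v.repr k) i • v i) *
          algebraMap F₁ (TensorProduct F K F₁ ⧸ M) f =
          (⟨algebraMap K (TensorProduct F K F₁ ⧸ M) ((v.repr k) i : K) *
            algebraMap F₁ (TensorProduct F K F₁ ⧸ M) f,
            mul_mem (hmem _ ((v.repr k) i).2) (IntermediateField.algebraMap_mem _ _)⟩ :
            F₁⟮u₁⟯) • w i := by
        rw [IntermediateField.smul_def, IntermediateField.smul_def, smul_eq_mul, smul_eq_mul,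
          map_mul]
        ring
      rw [e2]
      exact Submodule.smul_mem _ _ (Submodule.subset_span ⟨i, rfl⟩)
    | add x y h1 h2 =>
      rw [map_add]
      exact Submodule.add_mem _ h1 h2
  refine ⟨TensorProduct F K F₁ ⧸ M, iF, inferInstance, iA, hfin, u₁, htr, ?_, ?_⟩
  · classical
    exact Module.finite_def.2 ⟨Finset.univ.image w, by
      rw [Finset.coe_image, Finset.coe_univ, Set.image_univ, hspan]⟩
  · have h1 := finrank_range_le_card (R := F₁⟮u₁⟯) w
    rw [Set.finrank, hspan, finrank_top, Fintype.card_fin] at h1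
    exact h1

end Pool.Agent.NFF
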