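import Pool.Agent.NIPFields.NA.Main

/-!
# NIP function fields: definitions

THEOREM (library `NFF`, helper47; problem MP_3554b5_lc). Let `K` be an NIP field of characteristic
`0`, finitely generated and not algebraic over a subfield `F`. Then `K` is finite over `F(u)` for
some `u` transcendental over `F` (the transcendence degree is one), the `ℓ`-th powers have finite
index in `F'ˣ` for all finite extensions `F'` of `F` and all primes `ℓ`, and `F` is algebraically
closed, or real closed, or not large.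

Idea. For `q = ℓ ^ a`, the relation `y` is a norm from `K[T] / (T ^ q - x)` (`y ∈ NS q x`)
shatters arbitrarily large sets. If `x₁, …, xₙ ∈ F` are independent modulo `ℓ`-th powers, `yⱼ` is
the norm of `u - ∑ λᵢ xᵢ ^ (1 / q)` (`i ≠ j`) from `F(u)(xᵢ ^ (1 / q) : i ≠ j)`, so it is a norm
from `F(u)(xᵢ ^ (1 / q))` for `i ≠ j`; at the place `u = ∑ λᵢ xᵢ ^ (1 / q)` it has a simple zero
and `xⱼ` remains a non-power in the residue field, so `yⱼ` is not a norm from `F(u)(xⱼ ^ (1 /
q))`. From `F(u)` to `K`: take norms from `K` to `F(u)`; `q` does not divide `[K : F(u)]`. -/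

set_option autoImplicit false

namespace Pool.Agent.NFF

open Pool.Agent.NIPFields

universe u

/-- The elements `x i` are independent modulo `ℓ`-th powers. -/
def Ind {F : Type*} [Field F] {ι : Type*} [Fintype ι] (ℓ : ℕ) (x : ι → F) : Prop :=
  (∀ i, x i ≠ 0) ∧ ∀ (c : ι → ℕ) (w : F), w ^ ℓ = ∏ i, x i ^ c i → ∀ i, ℓ ∣ c i

/-- The norm relation is shattered by a matrix of norms. -/
theorem shatE_of_matrix {K : Type u} [Field K] {q : ℕ} [NeZero q] {n : ℕ} (t y : Fin n → K)
    (hy : ∀ i, y i ≠ 0) (h1 : ∀ i k, k ≠ i → y k ∈ NS q (t i)) (h2 : ∀ i, y i ∉ NS q (t i)) :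
    ShatE q K n := by
  classical
  refine ⟨t, fun J => ∏ k ∈ Jᶜ, y k, fun i J => ⟨fun h => ?_, fun h => ?_⟩⟩
  · by_contra hi
    have hi' : i ∈ Jᶜ := Finset.mem_compl.2 hi
    have h : (∏ k ∈ Jᶜ, y k) ∈ NS q (t i) := h
    rw [← Finset.mul_prod_erase _ _ hi'] at h
    have hP : (∏ k ∈ Jᶜ.erase i, y k) ∈ NS q (t i) :=
      NS_prod _ _ _ fun k hk => h1 i k (Finset.ne_of_mem_erase hk)
    have hP0 : (∏ k ∈ Jᶜ.erase i, y k) ≠ 0 := Finset.prod_ne_zero_iff.2 (fun k _ => hy k)
    apply h2 i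
    have := NS_mul' h (NS_inv' hP)
    rwa [mul_assoc, mul_inv_cancel₀ hP0, mul_one] at this
  · refine NS_prod _ _ _ fun k hk => h1 i k ?_
    rintro rfl
    exact (Finset.mem_compl.1 hk) h

end Pool.Agent.NFF
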