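import Pool.Agent.NIPFields.Phi

/-!
# Clearing denominators (package NFF-Frac)
-/

set_option autoImplicit false

namespace Pool.Agent.NFF

open Polynomial Pool.Agent.NIPFields
open scoped IntermediateField

universe u

private theorem nmat_smul_Frac {q : ℕ} {L : Type*} [Field L] (b c : L) (z : Fin q → L) :
    (nmat q b fun i => c * z i).det = c ^ q * (nmat q b z).det := by
  have h1 : (nmat q b fun i => c * z i) = c • nmat q b z := by
    ext r s
    simp only [nmat, Matrix.of_apply, Matrix.smul_apply, smul_eq_mul]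
    ring
  rw [h1, Matrix.det_smul, Fintype.card_fin]

/-- From the norm form over `F(u)` to the norm form over `F[X]`.

PROOF. `g = AdjoinSimple.gen F u` is transcendental over `F`, so `aeval g : F[X] → F⟮u⟯` is
injective. Let `(aeval g Y) ^ N = det (nmat q (aeval g x) z)`. By
`IntermediateField.mem_adjoin_simple_iff` (for `z i : F⟮u⟯`, seen in `K`) `z i = aeval g (r i) /
aeval g (s i)` with `aeval g (s i) ≠ 0` (if it is `0` take `r i = 0`, `s i = 1`). Let `d = ∏ s i`,
`p i = r i * ∏_(k ≠ i) s k`, so `aeval g d * z i = aeval g (p i)`. As `nmat q b (c * z) = c • nmat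
q b z` (`Matrix.det_smul`, `Fintype.card (Fin q) = q`), `aeval g (d ^ q * Y ^ N) = det (nmat q
(aeval g x) (aeval g ∘ p)) = aeval g (det (nmat q x p))` by `nmat_map`. Injectivity. -/
theorem exists_polys {F K : Type u} [Field F] [Field K] [Algebra F K] (u : K)
    (hu : Transcendental F u) {q : ℕ} [NeZero q] (x Y : F[X]) (N : ℕ)
    (h : (aeval (IntermediateField.AdjoinSimple.gen F u) Y) ^ N ∈
      NS q (aeval (IntermediateField.AdjoinSimple.gen F u) x)) :
    ∃ (p : Fin q → F[X]) (d : F[X]), d ≠ 0 ∧ d ^ q * Y ^ N = (nmat q x p).det := by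
  obtain ⟨g, hg⟩ : ∃ g : F⟮u⟯, g = IntermediateField.AdjoinSimple.gen F u := ⟨_, rfl⟩
  rw [← hg] at h
  have hgu : algebraMap F⟮u⟯ K g = u := by
    rw [hg]
    exact IntermediateField.AdjoinSimple.algebraMap_gen F u
  have hmap : ∀ r : F[X], algebraMap F⟮u⟯ K (aeval g r) = aeval u r := by
    intro r
    rw [← aeval_algebraMap_apply, hgu]
  have hinj : ∀ r r' : F[X], aeval g r = aeval g r' → r = r' := by
    intro r r' he
    refine (transcendental_iff_injective.1 hu) ?_
    rw [← hmap, ← hmap, he]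
  obtain ⟨z, hz⟩ := h
  have h1 : ∀ i, ∃ r s : F[X], s ≠ 0 ∧ aeval g s * z i = aeval g r := by
    intro i
    obtain ⟨r, s, hrs⟩ := (IntermediateField.mem_adjoin_simple_iff F (z i : K)).1 (z i).2
    by_cases hs : aeval u s = 0
    · refine ⟨0, 1, one_ne_zero, ?_⟩
      have h2 : z i = 0 := by
        apply Subtype.ext
        rw [hrs, hs, div_zero]
        rfl
      rw [h2, mul_zero, map_zero]
    · refine ⟨r, s, ?_, ?_⟩
      · rintro rfl
        exact hs (map_zero _)
      · apply (algebraMap F⟮u⟯ K).injective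
        rw [map_mul, hmap, hmap]
        have h2 : algebraMap F⟮u⟯ K (z i) = aeval u r / aeval u s := hrs
        rw [h2, mul_div_cancel₀ _ hs]
  choose r s hs hrs using h1
  refine ⟨fun i => r i * ∏ k ∈ Finset.univ.erase i, s k, ∏ i, s i,
    Finset.prod_ne_zero_iff.2 fun i _ => hs i, hinj _ _ ?_⟩
  have h2 : ∀ i, aeval g (∏ k, s k) * z i =
      aeval g (r i * ∏ k ∈ Finset.univ.erase i, s k) := by
    intro i
    rw [← Finset.mul_prod_erase Finset.univ s (Finset.mem_univ i), map_mul, map_mul, ← hrs i]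
    ring
  have h3 := nmat_map q (aeval g : F[X] →ₐ[F] F⟮u⟯).toRingHom x
    (fun i => r i * ∏ k ∈ Finset.univ.erase i, s k)
  have h4 : (aeval g : F[X] →ₐ[F] F⟮u⟯).toRingHom
      (nmat q x fun i => r i * ∏ k ∈ Finset.univ.erase i, s k).det =
      aeval g (nmat q x fun i => r i * ∏ k ∈ Finset.univ.erase i, s k).det := rfl
  rw [← h4, h3]
  have h5 : (fun i => (aeval g : F[X] →ₐ[F] F⟮u⟯).toRingHom
      (r i * ∏ k ∈ Finset.univ.erase i, s k)) = fun i => aeval g (∏ k, s k) * z i :=
    funext fun i => (h2 i).symm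
  rw [h5]
  have h6 : (aeval g : F[X] →ₐ[F] F⟮u⟯).toRingHom x = aeval g x := rfl
  rw [h6, nmat_smul_Frac, hg] at *
  rw [← hz, map_mul, map_pow, map_pow]

end Pool.Agent.NFF
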