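import Pool.Agent.NFF.Defs

/-!
# Independent elements exist (package NFF-IndEx)
-/

set_option autoImplicit false

namespace Pool.Agent.NFF

universe u

private theorem IndEx_quot {G : Type u} [CommGroup G] {ℓ : ℕ} (hℓ : 0 < ℓ)
    (h : ¬ ((powMonoidHom ℓ : G →* G).range).FiniteIndex) {n : ℕ} (x : Fin n → G) :
    ∃ z : G, z ∉ (powMonoidHom ℓ : G →* G).range ⊔ Subgroup.closure (Set.range x) := by
  by_contra hcon
  push Not at hcon
  apply h
  set H : Subgroup G := (powMonoidHom ℓ : G →* G).range with hH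
  have htop : H ⊔ Subgroup.closure (Set.range x) = ⊤ := by
    rw [eq_top_iff]
    intro z _
    exact hcon z
  have h1 : Subgroup.closure (QuotientGroup.mk' H '' Set.range x) = ⊤ := by
    have h2 : Subgroup.map (QuotientGroup.mk' H) (H ⊔ Subgroup.closure (Set.range x)) =
        Subgroup.map (QuotientGroup.mk' H) ⊤ := by rw [htop]
    rw [Subgroup.map_sup, QuotientGroup.map_mk'_self, bot_sup_eq, MonoidHom.map_closure,
      Subgroup.map_top_of_surjective _ (QuotientGroup.mk'_surjective H)] at h2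
    exact h2
  have hfg : Group.FG (G ⧸ H) := by
    rw [Group.fg_iff]
    exact ⟨_, h1, (Set.finite_range x).image _⟩
  have htor : IsMulTorsion (G ⧸ H) := by
    intro q
    rw [isOfFinOrder_iff_pow_eq_one]
    refine ⟨ℓ, hℓ, ?_⟩
    obtain ⟨g, rfl⟩ := QuotientGroup.mk'_surjective H q
    rw [← map_pow]
    exact (QuotientGroup.eq_one_iff (g ^ ℓ)).2 ⟨g, rfl⟩
  have hfin : Finite (G ⧸ H) := CommGroup.finite_of_fg_isMulTorsion _ htor
  exact Subgroup.finiteIndex_of_finite_quotient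

private theorem IndEx_dvd {G : Type u} [CommGroup G] {ℓ : ℕ} (hℓ : ℓ.Prime) {S : Subgroup G}
    {z : G} (hz : z ∉ S) {e : ℕ} (h1 : z ^ e ∈ S) (h2 : z ^ ℓ ∈ S) : ℓ ∣ e := by
  by_contra hcon
  have hc : Nat.Coprime e ℓ := ((Nat.Prime.coprime_iff_not_dvd hℓ).2 hcon).symm
  apply hz
  have hb := Nat.gcd_eq_gcd_ab e ℓ
  rw [Nat.coprime_iff_gcd_eq_one.1 hc] at hb
  have h3 : z = (z ^ e) ^ (Nat.gcdA e ℓ) * (z ^ ℓ) ^ (Nat.gcdB e ℓ) := by
    rw [← zpow_natCast, ← zpow_natCast, ← zpow_mul, ← zpow_mul, ← zpow_add, ← hb]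
    simp
  rw [h3]
  exact S.mul_mem (S.zpow_mem h1 _) (S.zpow_mem h2 _)

/-- PROOF. Induction on `n`; `n = 0` is trivial. Let `x : Fin n → F` be independent. If every unit
of `F` were of the form `∏ x i ^ c i * w ^ ℓ` (`c i : ℕ`), then we may take `c i < ℓ` (`x i ^ (ℓ
m) = (x i ^ m) ^ ℓ`), and the quotient of `Fˣ` by the `ℓ`-th powers would be the image of the
finite set `Fin n → Fin ℓ`, so finite, and the index finite
(`Subgroup.finiteIndex_of_finite_quotient`). So there is a unit `z` which is not of this form.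
`Fin.snoc x z` is independent: let `w ^ ℓ = ∏ x i ^ c i * z ^ e`. If `ℓ ∤ e`, there are `r, t : ℕ`
with `r * e = 1 + t * ℓ` (`Nat.exists_mul_emod_eq_one_of_coprime` or Bezout), so `z = w ^ (ℓ r) /
(∏ x i ^ (r c i) * z ^ (t ℓ))`, and `1 / x i ^ m = x i ^ ((ℓ - 1) m) / x i ^ (ℓ m)` shows that `z`
has the excluded form. So `ℓ ∣ e`, `z ^ e` is an `ℓ`-th power, and `hx.2` applies to `∏ x i ^ c i
= (w / z ^ (e / ℓ)) ^ ℓ`. -/
theorem exists_ind {F : Type u} [Field F] {ℓ : ℕ} (hℓ : ℓ.Prime)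
    (h : ¬ ((powMonoidHom ℓ : Fˣ →* Fˣ).range).FiniteIndex) (n : ℕ) :
    ∃ x : Fin n → F, Ind ℓ x := by
  induction n with
  | zero => exact ⟨Fin.elim0, fun i => i.elim0, fun c w _ i => i.elim0⟩
  | succ n ih =>
    obtain ⟨x, hx⟩ := ih
    obtain ⟨z, hz⟩ := IndEx_quot hℓ.pos h (fun i => Units.mk0 (x i) (hx.1 i))
    refine ⟨Fin.snoc x (z : F), ?_, ?_⟩
    · intro i
      refine Fin.lastCases ?_ (fun j => ?_) i
      · rw [Fin.snoc_last]
        exact z.ne_zero
      · rw [Fin.snoc_castSucc]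
        exact hx.1 j
    · intro c w hw
      rw [Fin.prod_univ_castSucc] at hw
      simp only [Fin.snoc_castSucc, Fin.snoc_last] at hw
      have hP : (∏ i, x i ^ c (Fin.castSucc i)) ≠ 0 :=
        Finset.prod_ne_zero_iff.2 fun i _ => pow_ne_zero _ (hx.1 i)
      have hw0 : w ≠ 0 := by
        rintro rfl
        rw [zero_pow hℓ.ne_zero] at hw
        exact mul_ne_zero hP (pow_ne_zero _ z.ne_zero) hw.symm
      have hu : (Units.mk0 w hw0) ^ ℓ =
          (∏ i, (Units.mk0 (x i) (hx.1 i)) ^ c (Fin.castSucc i)) * z ^ c (Fin.last n) := by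
        apply Units.ext
        push_cast
        simp only [Units.val_mk0]
        exact hw
      have he : ℓ ∣ c (Fin.last n) := by
        refine IndEx_dvd hℓ hz ?_ ?_
        · have h3 : z ^ c (Fin.last n) =
              (∏ i, (Units.mk0 (x i) (hx.1 i)) ^ c (Fin.castSucc i))⁻¹ * (Units.mk0 w hw0) ^ ℓ := by
            rw [hu, inv_mul_cancel_left]
          rw [h3]
          refine Subgroup.mul_mem _ (Subgroup.inv_mem _ (Subgroup.prod_mem _ fun i _ => ?_)) ?_
          · refine Subgroup.pow_mem _ ?_ _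
            exact Subgroup.mem_sup_right (Subgroup.subset_closure ⟨i, rfl⟩)
          · exact Subgroup.mem_sup_left ⟨_, rfl⟩
        · exact Subgroup.mem_sup_left ⟨z, rfl⟩
      obtain ⟨m, hm⟩ := he
      intro i
      refine Fin.lastCases ?_ (fun j => ?_) i
      · exact ⟨m, hm⟩
      · refine hx.2 (fun i => c (Fin.castSucc i)) (w / (z : F) ^ m) ?_ j
        rw [div_pow, hw, hm, ← pow_mul, mul_comm m ℓ, mul_div_assoc,
          div_self (pow_ne_zero _ z.ne_zero), mul_one]

end Pool.Agent.NFF
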