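import Pool.Agent.NFF.KerFin

/-!
# The index of the powers in finite extensions (package NFF-IndExt)
-/

set_option autoImplicit false

namespace Pool.Agent.NFF

open Polynomial
open scoped IntermediateField

universe u

/-- PROOF. The homomorphism `Fˣ ⧸ ℓ-th powers → F₁ˣ ⧸ ℓ-th powers` has a finite kernel by
`ker_finite`, so a finite target gives a finite source. (Directly: choose for each class of `F₁ˣ`
which is met by `Fˣ` an element `z ∈ Fˣ`; finitely many `z`. Every `x ∈ Fˣ` is `z * x'` with `x'` an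
`ℓ`-th power in `F₁`, so `x = z * c * f ^ ℓ`: finitely many classes.) -/
theorem not_finiteIndex_ext {F F₁ : Type u} [Field F] [CharZero F] [Field F₁] [Algebra F F₁]
    [FiniteDimensional F F₁] {ℓ : ℕ} (hℓ : ℓ.Prime)
    (h : ¬ ((powMonoidHom ℓ : Fˣ →* Fˣ).range).FiniteIndex) :
    ¬ ((powMonoidHom ℓ : F₁ˣ →* F₁ˣ).range).FiniteIndex := by
  classical
  intro hfi
  apply h
  obtain ⟨S, hS⟩ := ker_finite (F := F) (F₁ := F₁) hℓ
  let φ : Fˣ →* F₁ˣ := Units.map ((algebraMap F F₁ : F →+* F₁) : F →* F₁)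
  let K : Subgroup Fˣ := ((powMonoidHom ℓ : F₁ˣ →* F₁ˣ).range).comap φ
  have hK : K.FiniteIndex := by
    constructor
    show (((powMonoidHom ℓ : F₁ˣ →* F₁ˣ).range).comap φ).index ≠ 0
    rw [Subgroup.index_comap]
    exact Subgroup.FiniteIndex.index_ne_zero
      (H := ((powMonoidHom ℓ : F₁ˣ →* F₁ˣ).range).subgroupOf φ.range)
  let u : S → Fˣ := fun c => if hc : (c : F) ≠ 0 then Units.mk0 (c : F) hc else 1
  let g : (Fˣ ⧸ K) × S → Fˣ ⧸ ((powMonoidHom ℓ : Fˣ →* Fˣ).range) :=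
    fun p => QuotientGroup.mk (p.1.out * u p.2)
  have hg : Function.Surjective g := by
    intro q
    obtain ⟨x, rfl⟩ := QuotientGroup.mk_surjective q
    have h1 : (((x : Fˣ ⧸ K)).out)⁻¹ * x ∈ K :=
      QuotientGroup.eq.1 (QuotientGroup.out_eq' (x : Fˣ ⧸ K))
    obtain ⟨e, he⟩ := h1
    set z : Fˣ := (((x : Fˣ ⧸ K)).out)⁻¹ * x with hz
    have h2 : (e : F₁) ^ ℓ = algebraMap F F₁ (z : F) := congrArg Units.val he
    obtain ⟨c, hc, hc0, f, hf⟩ := hS (z : F) z.ne_zero ⟨e, h2⟩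
    have hf0 : f ≠ 0 := by
      rintro rfl
      rw [zero_pow hℓ.ne_zero, mul_zero] at hf
      exact z.ne_zero hf
    refine ⟨((x : Fˣ ⧸ K), ⟨c, hc⟩), ?_⟩
    have h3 : u ⟨c, hc⟩ = Units.mk0 c hc0 := dif_pos hc0
    refine QuotientGroup.eq.2 ⟨Units.mk0 f hf0, ?_⟩
    have h5 : c * f ^ ℓ = ((Units.mk0 c hc0 * (Units.mk0 f hf0) ^ ℓ : Fˣ) : F) := by
      rw [Units.val_mul, Units.val_pow_eq_pow_val, Units.val_mk0, Units.val_mk0]
    have h4 : z = Units.mk0 c hc0 * (Units.mk0 f hf0) ^ ℓ := Units.ext (hf.trans h5)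
    show (Units.mk0 f hf0) ^ ℓ = (((x : Fˣ ⧸ K)).out * u ⟨c, hc⟩)⁻¹ * x
    rw [h3, mul_inv_rev, mul_assoc, ← hz, h4, inv_mul_cancel_left]
  have hfin : Finite (Fˣ ⧸ K) := Subgroup.finite_quotient_of_finiteIndex
  have hq : Finite (Fˣ ⧸ ((powMonoidHom ℓ : Fˣ →* Fˣ).range)) := Finite.of_surjective g hg
  exact Subgroup.finiteIndex_of_finite_quotient

end Pool.Agent.NFF
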