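import Mathlib

/-!
# Irreducibility of `X ^ (ℓ ^ m) - α` (package NFF-Irr)
-/

set_option autoImplicit false

namespace Pool.Agent.NFF

open Polynomial

universe u

open IntermediateField in
private theorem irr_two (m : ℕ) : ∀ {F : Type u} [Field F], (∃ i : F, i ^ 2 = -1) → ∀ {α : F},
    (∀ w : F, w ^ 2 ≠ α) → Irreducible (X ^ 2 ^ m - C α : F[X]) := by
  induction m with
  | zero =>
    intro F _ _ α _
    simpa using irreducible_X_sub_C α
  | succ m ih =>
    intro F _ hi α hα
    obtain ⟨i, hi⟩ := hi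
    rw [pow_succ]
    apply X_pow_mul_sub_C_irreducible (X_pow_sub_C_irreducible_of_prime Nat.prime_two hα)
    intro E _ _ x hx
    have hint : IsIntegral F x := not_not.mp fun h ↦ by
      simpa only [degree_zero, degree_X_pow_sub_C Nat.prime_two.pos,
        WithBot.natCast_ne_bot] using congr_arg degree (hx.symm.trans (dif_neg h))
    refine ih ⟨algebraMap F _ i, by rw [← map_pow, hi, map_neg, map_one]⟩ ?_
    intro b hb
    have h1 : (Algebra.norm F b) ^ 2 = -α := by
      rw [← map_pow, hb, ← adjoin.powerBasis_gen hint,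
        Algebra.PowerBasis.norm_gen_eq_coeff_zero_minpoly]
      simp [minpoly_gen, hx]
    apply hα (i * Algebra.norm F b)
    rw [mul_pow, hi, h1, neg_mul_neg, one_mul]

/-- If `α` is no `ℓ`-th power (and `-1` is a square), then `X ^ (ℓ ^ m) - α` is irreducible.

PROOF. For `ℓ ≠ 2`: `X_pow_sub_C_irreducible_of_prime_pow` (Mathlib,
`FieldTheory/KummerExtension`). For `ℓ = 2`: induction on `m`, for all fields at once; `m = 0` is
trivial (`X - C α`). Step: `2 ^ (m + 1) = 2 ^ m * 2` and `X_pow_mul_sub_C_irreducible` (Mathlib,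
`FieldTheory/KummerPolynomial`): `X ^ 2 - C α` is irreducible
(`X_pow_sub_C_irreducible_of_prime`), and for `x` in an extension `E` with `minpoly F x = X ^ 2 -
C α`, the generator `β` of `F⟮x⟯` is no square in `F⟮x⟯`: if `β = γ ^ 2`, then `N(γ) ^ 2 = N(β) =
-α` (`N` the norm from `F⟮x⟯` to `F`; `Algebra.norm` of the generator is `(-1) ^ 2 * coeff 0
(minpoly)`, e.g. `Algebra.PowerBasis.norm_gen_eq_coeff_zero_minpoly`), and `α = (i * N(γ)) ^ 2`, a
contradiction. So the induction hypothesis (over `F⟮x⟯`, which contains `i`) applies. -/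
theorem irr_of_not_pow {F : Type u} [Field F] {ℓ : ℕ} (hℓ : ℓ.Prime) (hi : ∃ i : F, i ^ 2 = -1)
    {α : F} (hα : ∀ w : F, w ^ ℓ ≠ α) (m : ℕ) : Irreducible (X ^ ℓ ^ m - C α : F[X]) := by
  by_cases h2 : ℓ = 2
  · subst h2
    exact irr_two m hi hα
  · exact X_pow_sub_C_irreducible_of_prime_pow hℓ h2 m hα

end Pool.Agent.NFF
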