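import Mathlib

/-!
# One step of Kummer theory (package NFF-KumStep)
-/

set_option autoImplicit false

namespace Pool.Agent.NFF

open Polynomial
open scoped IntermediateField

universe u

/-- If `X ^ q - b` is irreducible over `F`, `q = ℓ ^ a`, and `F` contains the `q`-th roots of unity,
an element `y` of `F` which is an `ℓ`-th power in `F(b ^ (1 / q))` is `b ^ c * f ^ ℓ` with `f ∈ F`.

PROOF. `M = F⟮s⟯` has the power basis `1, s, …, s ^ (q - 1)` (`minpoly F s = X ^ q - C b`,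
`minpoly.eq_of_irreducible_of_monic`), and there is an `F`-algebra homomorphism `σ : M → M` with
`σ s = ζ s` (`(IntermediateField.adjoin.powerBasis _).lift` or
`IntermediateField.algHomAdjoinIntegralEquiv`; `ζ s` is a root of `X ^ q - C b`). Write `w = ∑ w k
s ^ k`, `w k ∈ F`. As `(σ w) ^ ℓ = y = w ^ ℓ` and `w ≠ 0`, `σ w = η w` with `η ^ ℓ = 1`, `η` in
`M`; `η = ζ ^ (c * (q / ℓ))` for some `c` (the roots of `X ^ ℓ - 1` in `M` are the powers of the
primitive `ℓ`-th root of unity `ζ ^ (q / ℓ)`, `IsPrimitiveRoot.eq_pow_of_pow_eq_one`), so `η ∈ F`.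
Compare coefficients in `σ w = η w`: `w k ζ ^ k = ζ ^ (c q / ℓ) w k`, so `w k = 0` unless `k ≡ c q
/ ℓ` modulo `q`. So `w = f s ^ k` with `f ∈ F`, `k = c q / ℓ` modulo `q`, hence `ℓ * k ≡ 0` modulo
`q`, `ℓ * k = q * c'`, and `y = w ^ ℓ = f ^ ℓ * s ^ (q c') = f ^ ℓ * b ^ c'`. -/
theorem kum_step {F Ω : Type u} [Field F] [Field Ω] [Algebra F Ω] {ℓ a : ℕ} (hℓ : ℓ.Prime)
    (ha : 0 < a) {ζ : F} (hζ : IsPrimitiveRoot ζ (ℓ ^ a)) {b y : F} (hy : y ≠ 0)
    (hb : Irreducible (X ^ ℓ ^ a - C b : F[X])) (s : Ω) (hs : s ^ ℓ ^ a = algebraMap F Ω b) (w : Ω)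
    (hw : w ∈ F⟮s⟯) (hwy : w ^ ℓ = algebraMap F Ω y) : ∃ (c : ℕ) (f : F), y = b ^ c * f ^ ℓ := by
  have hq0 : ℓ ^ a ≠ 0 := pow_ne_zero _ hℓ.ne_zero
  have : NeZero ℓ := ⟨hℓ.ne_zero⟩
  have hmon : (X ^ ℓ ^ a - C b : F[X]).Monic := monic_X_pow_sub_C b hq0
  have hroot : aeval s (X ^ ℓ ^ a - C b : F[X]) = 0 := by
    simp [hs]
  have hmin : (X ^ ℓ ^ a - C b : F[X]) = minpoly F s :=
    minpoly.eq_of_irreducible_of_monic hb hroot hmon
  have hint : IsIntegral F s := ⟨X ^ ℓ ^ a - C b, hmon, hroot⟩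
  -- a polynomial of small degree
  have hw1 : w ∈ (F⟮s⟯).toSubalgebra := hw
  rw [IntermediateField.adjoin_simple_toSubalgebra_of_isAlgebraic hint.isAlgebraic,
    Algebra.adjoin_singleton_eq_range_aeval] at hw1
  obtain ⟨P0, hP0⟩ := hw1
  have hP0' : aeval s P0 = w := hP0
  obtain ⟨P, hPw, hPd⟩ : ∃ P : F[X], aeval s P = w ∧ P.degree < ((ℓ ^ a : ℕ) : WithBot ℕ) := by
    refine ⟨P0 %ₘ (X ^ ℓ ^ a - C b), ?_, ?_⟩
    · rw [Polynomial.aeval_modByMonic_eq_self_of_root hroot, hP0']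
    · have h1 := Polynomial.degree_modByMonic_lt P0 hmon
      rwa [degree_X_pow_sub_C (Nat.pos_of_ne_zero hq0)] at h1
  -- the conjugate
  have hdvd : (X ^ ℓ ^ a - C b : F[X]) ∣ P ^ ℓ - C y := by
    rw [hmin]
    refine minpoly.dvd F s ?_
    simp [hPw, hwy]
  obtain ⟨Q, hQ⟩ := hdvd
  set P' : F[X] := P.comp (C ζ * X) with hP'
  have hζq : ζ ^ ℓ ^ a = 1 := hζ.pow_eq_one
  have hQ' : P' ^ ℓ - C y = (X ^ ℓ ^ a - C b) * Q.comp (C ζ * X) := by
    have h1 := congrArg (fun R : F[X] => R.comp (C ζ * X)) hQ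
    simp only [sub_comp, pow_comp, mul_comp, C_comp, X_comp] at h1
    rw [mul_pow, ← C_pow, hζq, C_1, one_mul] at h1
    exact h1
  have hw' : (aeval s P') ^ ℓ = algebraMap F Ω y := by
    have h1 := congrArg (fun R : F[X] => aeval s R) hQ'
    simp only [map_sub, map_mul, map_pow, aeval_C] at h1
    rw [aeval_X, hs, sub_self, zero_mul, sub_eq_zero] at h1
    exact h1
  have hw0 : w ≠ 0 := by
    rintro rfl
    rw [zero_pow hℓ.ne_zero] at hwy
    exact hy ((map_eq_zero (algebraMap F Ω)).1 hwy.symm)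
  -- the root of unity
  have ha' : ℓ ^ a = ℓ ^ (a - 1) * ℓ := by
    rw [← pow_succ]
    congr 1
    omega
  have hpr : IsPrimitiveRoot (algebraMap F Ω (ζ ^ ℓ ^ (a - 1))) ℓ :=
    (hζ.pow (Nat.pos_of_ne_zero hq0) ha').map_of_injective (algebraMap F Ω).injective
  have hone : (aeval s P' / w) ^ ℓ = 1 := by
    rw [div_pow, hw', hwy, div_self]
    rw [← hwy]
    exact pow_ne_zero _ hw0
  obtain ⟨c, hc, hcη⟩ := hpr.eq_pow_of_pow_eq_one hone
  set k0 : ℕ := ℓ ^ (a - 1) * c with hk0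
  have hk0q : k0 < ℓ ^ a := by
    rw [ha', hk0]
    exact Nat.mul_lt_mul_of_pos_left hc (pow_pos hℓ.pos _)
  have heq : aeval s P' = algebraMap F Ω (ζ ^ k0) * w := by
    rw [← map_pow, ← pow_mul, ← hk0] at hcη
    rw [hcη, div_mul_cancel₀ _ hw0]
  have hzero : P' - C (ζ ^ k0) * P = 0 := by
    by_contra hne
    have h1 : aeval s (P' - C (ζ ^ k0) * P) = 0 := by
      rw [map_sub, map_mul, aeval_C, hPw, heq, sub_self]
    have h2 := minpoly.degree_le_of_ne_zero F s hne h1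
    rw [← hmin, degree_X_pow_sub_C (Nat.pos_of_ne_zero hq0)] at h2
    have h3 : (P' - C (ζ ^ k0) * P).degree < ((ℓ ^ a : ℕ) : WithBot ℕ) := by
      refine (Polynomial.degree_lt_iff_coeff_zero _ _).2 fun m hm => ?_
      have h4 : P.coeff m = 0 := (Polynomial.degree_lt_iff_coeff_zero _ _).1 hPd m hm
      rw [coeff_sub, hP', comp_C_mul_X_coeff, coeff_C_mul, h4, zero_mul, mul_zero, sub_zero]
    exact absurd h2 (not_le.2 h3)
  have hcoef : ∀ m, m ≠ k0 → P.coeff m = 0 := by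
    intro m hm
    by_cases hmq : ℓ ^ a ≤ m
    · exact (Polynomial.degree_lt_iff_coeff_zero _ _).1 hPd m hmq
    · have h1 := congrArg (fun R : F[X] => R.coeff m) hzero
      simp only [coeff_sub, coeff_C_mul, coeff_zero] at h1
      rw [hP', comp_C_mul_X_coeff] at h1
      by_contra hne
      have h2 : ζ ^ m = ζ ^ k0 := by
        have h3 : P.coeff m * (ζ ^ m - ζ ^ k0) = 0 := by rw [← h1]; ring
        rcases mul_eq_zero.1 h3 with h4 | h4
        · exact absurd h4 hne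
        · exact sub_eq_zero.1 h4
      exact hm (hζ.pow_inj (not_le.1 hmq) hk0q h2)
  have hPm : P = C (P.coeff k0) * X ^ k0 := by
    ext m
    rw [coeff_C_mul_X_pow]
    by_cases hm : m = k0
    · rw [if_pos hm, hm]
    · rw [if_neg hm, hcoef m hm]
  refine ⟨c, P.coeff k0, ?_⟩
  apply (algebraMap F Ω).injective
  rw [← hwy, ← hPw]
  conv_lhs => rw [hPm]
  rw [map_mul, aeval_C, map_pow, aeval_X, mul_pow, ← pow_mul, map_mul, map_pow, map_pow,
    mul_comm (algebraMap F Ω b ^ c)]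
  congr 1
  rw [← hs, ← pow_mul]
  congr 1
  rw [hk0, ha']
  ring

end Pool.Agent.NFF
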