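import Pool.Agent.NFF.Irr
import Pool.Agent.NFF.KumStep

/-!
# Finitely many classes die in a finite extension (package NFF-KerFin)
-/

set_option autoImplicit false

namespace Pool.Agent.NFF

open Polynomial
open scoped IntermediateField

universe u

/-- an element with only one conjugate lies in the ground field -/
private theorem kerFin_fixed {F F₁ Ω : Type u} [Field F] [CharZero F] [Field F₁] [Algebra F F₁]
    [FiniteDimensional F F₁] [Field Ω] [Algebra F Ω] [IsAlgClosed Ω] (ι : F₁ →ₐ[F] Ω) (y : F₁)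
    (h : ∀ τ : F₁ →ₐ[F] Ω, τ y = ι y) : ∃ f : F, algebraMap F F₁ f = y := by
  classical
  have hc : CharZero Ω := charZero_of_injective_algebraMap (algebraMap F Ω).injective
  have h1 := trace_eq_sum_embeddings (K := F) (L := F₁) Ω (x := y)
  have hn : Fintype.card (F₁ →ₐ[F] Ω) = Module.finrank F F₁ := AlgHom.card F F₁ Ω
  have hn0 : 0 < Module.finrank F F₁ := Module.finrank_pos
  rw [Finset.sum_congr rfl fun τ _ => h τ, Finset.sum_const, Finset.card_univ, hn,
    nsmul_eq_mul] at h1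
  refine ⟨Algebra.trace F F₁ y / (Module.finrank F F₁ : F), ?_⟩
  apply ι.toRingHom.injective
  show ι (algebraMap F F₁ _) = ι y
  rw [AlgHom.commutes, map_div₀, h1, map_natCast]
  have hn1 : ((Module.finrank F F₁ : ℕ) : Ω) ≠ 0 := Nat.cast_ne_zero.2 hn0.ne'
  field_simp

/-- Finitely many classes of `F` modulo `ℓ`-th powers become `ℓ`-th powers in `F₁`.

PROOF. Let `Ω` be an algebraic closure of `F₁`, `ζ ∈ Ω` a primitive `ℓ`-th root of unity, `F₀ =
F⟮ζ⟯`, `F₂ = F₀(F₁)` (adjoin the image of `F₁`), finite and separable over `F₀`, so there are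
finitely many intermediate fields `M` of `F₂ / F₀`
(`Field.finite_intermediateField_of_exists_primitive_element`, `Field.exists_primitive_element`,
or the instance for separable finite extensions). (1) If `y ∈ F`, `y ≠ 0`, is an `ℓ`-th power in
`F₀`, it is one in `F`: `[F₀ : F] = d < ℓ` (the degree of the minimal polynomial of `ζ`, which
divides the cyclotomic polynomial of degree `ℓ - 1`), `y ^ d = N(e) ^ ℓ`, and `d` is prime to `ℓ`.
(2) For each `M` choose, if there is one, `y_M ∈ F` nonzero with an `ℓ`-th root `e_M ∈ F₁`,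
`F₀⟮e_M⟯ = M`, no `ℓ`-th power in `F₀`. Let `C` consist of `1` and all `y_M ^ c`, `c < ℓ`. Let `x
∈ F` be nonzero, `x = e ^ ℓ`, `e ∈ F₁`. If `x` is an `ℓ`-th power in `F₀`, it is one in `F` by
(1). Otherwise `F₀⟮e⟯ = M` has a `y_M`; `X ^ ℓ - y_M` is irreducible over `F₀`
(`X_pow_sub_C_irreducible_of_prime`), `e ∈ F₀⟮e_M⟯`, and `kum_step` for `a = 1` gives `x = y_M ^ c
* f ^ ℓ` with `f ∈ F₀`; reduce `c` modulo `ℓ`; `x / y_M ^ c` is an `ℓ`-th power in `F₀`, so in
`F`. -/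
theorem ker_finite {F F₁ : Type u} [Field F] [CharZero F] [Field F₁] [Algebra F F₁]
    [FiniteDimensional F F₁] {ℓ : ℕ} (hℓ : ℓ.Prime) :
    ∃ S : Finset F, ∀ x : F, x ≠ 0 → (∃ e : F₁, e ^ ℓ = algebraMap F F₁ x) →
      ∃ c ∈ S, c ≠ 0 ∧ ∃ f : F, x = c * f ^ ℓ := by
  classical
  let Ω := AlgebraicClosure F₁
  let ι : F₁ →ₐ[F] Ω := IsScalarTower.toAlgHom F F₁ Ω
  let Z : Finset Ω := (nthRoots ℓ (1 : Ω)).toFinset
  let P : ((F₁ →ₐ[F] Ω) → Z) → F → Prop := fun c x =>
    x ≠ 0 ∧ ∃ e : F₁, e ^ ℓ = algebraMap F F₁ x ∧ ∀ τ : F₁ →ₐ[F] Ω, τ e = (c τ : Ω) * ι e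
  let rep : ((F₁ →ₐ[F] Ω) → Z) → F := fun c => if h : ∃ x, P c x then h.choose else 0
  refine ⟨Finset.univ.image rep, fun x hx ⟨e, he⟩ => ?_⟩
  have hx1 : algebraMap F F₁ x ≠ 0 := fun h =>
    hx ((algebraMap F F₁).injective (h.trans (map_zero _).symm))
  have he0 : e ≠ 0 := by
    intro h
    rw [h, zero_pow hℓ.ne_zero] at he
    exact hx1 he.symm
  have hι0 : ι e ≠ 0 := fun h => he0 (ι.toRingHom.injective (h.trans (map_zero _).symm))
  have hmem : ∀ τ : F₁ →ₐ[F] Ω, τ e / ι e ∈ Z := by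
    intro τ
    rw [Multiset.mem_toFinset, mem_nthRoots hℓ.pos, div_pow, ← map_pow, ← map_pow, he,
      AlgHom.commutes, AlgHom.commutes]
    refine div_self fun h => hx ?_
    exact (algebraMap F Ω).injective (h.trans (map_zero _).symm)
  have hP : P (fun τ => ⟨τ e / ι e, hmem τ⟩) x := by
    refine ⟨hx, e, he, fun τ => ?_⟩
    show τ e = τ e / ι e * ι e
    rw [div_mul_cancel₀ _ hι0]
  generalize hc : (fun τ => (⟨τ e / ι e, hmem τ⟩ : Z)) = c at hP
  have hex : ∃ x, P c x := ⟨x, hP⟩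
  have hrep : P c (rep c) := by
    show P c (if h : ∃ x, P c x then h.choose else 0)
    rw [dif_pos hex]
    exact hex.choose_spec
  obtain ⟨h0, e', he', hτ'⟩ := hrep
  refine ⟨rep c, Finset.mem_image_of_mem _ (Finset.mem_univ _), h0, ?_⟩
  have hτ : ∀ τ : F₁ →ₐ[F] Ω, τ e = (c τ : Ω) * ι e := by
    intro τ
    rw [← hc]
    show τ e = τ e / ι e * ι e
    rw [div_mul_cancel₀ _ hι0]
  have hc0 : ∀ τ : F₁ →ₐ[F] Ω, (c τ : Ω) ≠ 0 := by
    intro τ h
    have h1 := hτ τ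
    rw [h, zero_mul] at h1
    exact he0 (τ.toRingHom.injective (h1.trans (map_zero _).symm))
  obtain ⟨f, hf⟩ := kerFin_fixed ι (e / e') (fun τ => by
    rw [map_div₀, map_div₀, hτ τ, hτ' τ, mul_div_mul_left _ _ (hc0 τ)])
  refine ⟨f, ?_⟩
  have h1 : algebraMap F F₁ (rep c) ≠ 0 := fun h =>
    h0 ((algebraMap F F₁).injective (h.trans (map_zero _).symm))
  apply (algebraMap F F₁).injective
  rw [map_mul, map_pow, hf, div_pow, he, he', mul_div_cancel₀ _ h1]

end Pool.Agent.NFF
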