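import Pool.Agent.NFF.Defs
import Pool.Agent.NFF.Irr
import Pool.Agent.NFF.KumStep

/-!
# Independent elements remain non-powers (package NFF-Kum)
-/

set_option autoImplicit false

namespace Pool.Agent.NFF

open Polynomial
open scoped IntermediateField

universe u

private theorem adjoin_insert_eq {F Ω : Type u} [Field F] [Field Ω] [Algebra F Ω] (S : Set Ω)
    (t : Ω) {w : Ω} (hw : w ∈ IntermediateField.adjoin F (insert t S)) :
    w ∈ (IntermediateField.adjoin F S)⟮t⟯ := by
  have h : IntermediateField.adjoin F (insert t S) ≤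
      IntermediateField.restrictScalars F ((IntermediateField.adjoin F S)⟮t⟯) := by
    rw [IntermediateField.adjoin_le_iff]
    rintro v (rfl | hv)
    · exact IntermediateField.mem_adjoin_simple_self _ _
    · exact (IntermediateField.adjoin (IntermediateField.adjoin F S) {t}).algebraMap_mem
        ⟨v, IntermediateField.subset_adjoin F S hv⟩
  exact h hw

private theorem sq_root {F : Type u} [Field F] {q : ℕ} (hq : 0 < q) {ξ : F}
    (hξ : IsPrimitiveRoot ξ (4 * q)) : (ξ ^ q) ^ 2 = -1 := by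
  have h4 : IsPrimitiveRoot (ξ ^ q) 4 := hξ.pow (by omega) (mul_comm 4 q)
  have h2 : IsPrimitiveRoot ((ξ ^ q) ^ 2) 2 := h4.pow (by norm_num) (by norm_num)
  exact h2.eq_neg_one_of_two_right

private theorem claim {F Ω : Type u} [Field F] [Field Ω] [Algebra F Ω] {ℓ a : ℕ}
    (hℓ : ℓ.Prime) (ha : 0 < a) {ξ : F} (hξ : IsPrimitiveRoot ξ (4 * ℓ ^ a)) {ι : Type}
    [Fintype ι] [DecidableEq ι] (x : ι → F) (hx : Ind ℓ x) (s : ι → Ω)
    (hs : ∀ i, s i ^ ℓ ^ a = algebraMap F Ω (x i)) (A : Finset ι) :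
    ∀ (c : ι → ℕ) (w : Ω), w ∈ IntermediateField.adjoin F (s '' (A : Set ι)) →
      w ^ ℓ = algebraMap F Ω (∏ i ∈ Aᶜ, x i ^ c i) → ∀ i ∉ A, ℓ ∣ c i := by
  induction A using Finset.induction_on with
  | empty =>
    intro c w hw hwl i _
    rw [Finset.coe_empty, Set.image_empty, IntermediateField.adjoin_empty,
      IntermediateField.mem_bot] at hw
    obtain ⟨v, rfl⟩ := hw
    rw [← map_pow] at hwl
    refine hx.2 c v ?_ i
    have := (algebraMap F Ω).injective hwl
    simpa using this
  | insert k A hk ih =>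
    intro c w hw hwl i hi
    have hq : 0 < ℓ ^ a := pow_pos hℓ.pos a
    set E := IntermediateField.adjoin F (s '' (A : Set ι)) with hE
    rw [Finset.coe_insert, Set.image_insert_eq] at hw
    have hw' : w ∈ E⟮s k⟯ := adjoin_insert_eq _ _ hw
    -- `x k` is no power in `E`
    have hnp : ∀ v : E, v ^ ℓ ≠ algebraMap F E (x k) := by
      intro v hv
      have h1 : (v : Ω) ^ ℓ = algebraMap F Ω (∏ i ∈ Aᶜ, x i ^ (Pi.single k 1 : ι → ℕ) i) := by
        have h2 : ∏ i ∈ Aᶜ, x i ^ (Pi.single k 1 : ι → ℕ) i = x k := by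
          rw [Finset.prod_eq_single k]
          · simp
          · intro b _ hb
            rw [Pi.single_eq_of_ne hb, pow_zero]
          · intro h
            exact absurd (Finset.mem_compl.2 hk) h
        rw [h2]
        have h3 := congrArg (algebraMap E Ω) hv
        rw [map_pow, ← IsScalarTower.algebraMap_apply] at h3
        exact h3
      have h4 := ih (Pi.single k 1) v v.2 h1 k hk
      rw [Pi.single_eq_same] at h4
      exact hℓ.one_lt.ne' (Nat.dvd_one.1 h4)
    have hirr : Irreducible (X ^ ℓ ^ a - C (algebraMap F E (x k)) : E[X]) := by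
      refine irr_of_not_pow hℓ ⟨algebraMap F E (ξ ^ ℓ ^ a), ?_⟩ hnp a
      rw [← map_pow, sq_root hq hξ, map_neg, map_one]
    have hζ : IsPrimitiveRoot (algebraMap F E (ξ ^ 4)) (ℓ ^ a) :=
      (hξ.pow (by positivity) rfl).map_of_injective (algebraMap F E).injective
    have hy0 : algebraMap F E (∏ i ∈ (insert k A)ᶜ, x i ^ c i) ≠ 0 := by
      rw [Ne, map_eq_zero]
      exact Finset.prod_ne_zero_iff.2 fun i _ => pow_ne_zero _ (hx.1 i)
    obtain ⟨e, f, hef⟩ := kum_step (F := E) (Ω := Ω) hℓ ha hζ hy0 hirr (s k)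
      (by rw [hs, IsScalarTower.algebraMap_apply F E Ω]) w hw'
      (by rw [hwl, IsScalarTower.algebraMap_apply F E Ω])
    have hki : i ≠ k := fun h => hi (h ▸ Finset.mem_insert_self k A)
    have hiA : i ∉ A := fun h => hi (Finset.mem_insert_of_mem h)
    have hcompl : Aᶜ = insert k (insert k A)ᶜ := by
      ext j
      simp only [Finset.mem_compl, Finset.mem_insert]
      constructor
      · intro h
        by_cases hj : j = k
        · exact Or.inl hj
        · exact Or.inr fun h' => h'.elim hj h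
      · rintro (rfl | h)
        · exact hk
        · exact fun h' => h (Or.inr h')
    have h5 := ih (Function.update c k ((ℓ - 1) * e))
      (algebraMap F Ω (x k) ^ e * (f : Ω))
      (mul_mem (pow_mem (E.algebraMap_mem (x k)) e) f.2) ?_ i hiA
    · rwa [Function.update_of_ne hki] at h5
    · have h6 : ∏ i ∈ Aᶜ, x i ^ (Function.update c k ((ℓ - 1) * e)) i =
          x k ^ ((ℓ - 1) * e) * ∏ i ∈ (insert k A)ᶜ, x i ^ c i := by
        rw [hcompl, Finset.prod_insert (by simp)]
        rw [Function.update_self]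
        congr 1
        refine Finset.prod_congr rfl fun j hj => ?_
        have hjk : j ≠ k := by
          rintro rfl
          exact (Finset.mem_compl.1 hj) (Finset.mem_insert_self _ _)
        rw [Function.update_of_ne hjk]
      rw [h6, map_mul, map_pow]
      have h7 := congrArg (algebraMap E Ω) hef
      rw [← IsScalarTower.algebraMap_apply, map_mul, map_pow, map_pow,
        ← IsScalarTower.algebraMap_apply] at h7
      rw [h7]
      have h8 : algebraMap E Ω f = (f : Ω) := rfl
      rw [h8, mul_pow, ← mul_assoc, ← pow_mul, ← pow_add]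
      congr 2
      obtain ⟨l, rfl⟩ : ∃ l, ℓ = l + 1 := ⟨ℓ - 1, by have := hℓ.pos; omega⟩
      simp only [Nat.add_sub_cancel]
      ring

/-- PROOF. `q = ℓ ^ a`, `F_A = adjoin F (s '' A)` for a finite set `A` of indices. Claim, by
induction on `A`: if `c : ι → ℕ`, `w ∈ F_A` and `w ^ ℓ = ∏_(i ∉ A) x i ^ c i` (in `Ω`), then `ℓ ∣
c i` for all `i ∉ A`. For `A = ∅`, `F_A = ⊥` and this is `hx.2` (`IntermediateField.mem_bot`).
Step from `A` to `insert k A`: `F_(insert k A) = F_A⟮s k⟯`
(`IntermediateField.adjoin_insert_adjoin`, `IntermediateField.adjoin_adjoin_left`,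
`restrictScalars`). Over the field `F_A`, `x k` is no `ℓ`-th power (claim for `c k = 1`, `c i = 0`
for `i ≠ k`, since `ℓ ∤ 1`), so `X ^ q - x k` is irreducible over `F_A` (`irr_of_not_pow`, `i = ξ
^ q`). Given `w ∈ F_(insert k A)` with `w ^ ℓ = y`, `y = ∏_(i ∉ insert k A) x i ^ c i`, `kum_step`
over `F_A` with `ζ = ξ ^ 4` gives `y = x k ^ e * f ^ ℓ`, `f ∈ F_A`; so `y * x k ^ ((ℓ - 1) * e) =
(x k ^ e * f) ^ ℓ` is an `ℓ`-th power in `F_A` and the claim for `A` (exponents `c i` for `i ∉
insert k A`, `(ℓ - 1) * e` for `k`) gives `ℓ ∣ c i`. The theorem is the claim for `A = {i | i ≠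
j}`, `c j = 1`. -/
theorem not_pow_adjoin {F Ω : Type u} [Field F] [Field Ω] [Algebra F Ω] {ℓ a : ℕ}
    (hℓ : ℓ.Prime) (ha : 0 < a) {ξ : F} (hξ : IsPrimitiveRoot ξ (4 * ℓ ^ a)) {ι : Type}
    [Fintype ι] (x : ι → F) (hx : Ind ℓ x) (s : ι → Ω)
    (hs : ∀ i, s i ^ ℓ ^ a = algebraMap F Ω (x i)) (j : ι) (w : Ω)
    (hw : w ∈ IntermediateField.adjoin F (s '' {i | i ≠ j})) : w ^ ℓ ≠ algebraMap F Ω (x j) := by
  classical
  intro h
  have hA : ((Finset.univ.erase j : Finset ι) : Set ι) = {i | i ≠ j} := by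
    ext i
    simp
  have h1 := claim hℓ ha hξ x hx s hs (Finset.univ.erase j) (fun _ => 1) w (by rwa [hA]) (by
    have h2 : (Finset.univ.erase j : Finset ι)ᶜ = {j} := by
      ext i
      simp
    rw [h2, Finset.prod_singleton, pow_one]
    exact h) j (by simp)
  exact hℓ.one_lt.ne' (Nat.dvd_one.1 h1)

end Pool.Agent.NFF
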