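import Pool.Agent.NFF.PatA
import Pool.Agent.NFF.Irr

/-!
# The pattern for constant fields with finitely many classes (helper63)

Let the `q`-th powers, `q = ℓ ^ a`, have finite index in `Fˣ`, and let `α` be no `ℓ`-th power. By
the theorem of Gallai (Mathlib: `Combinatorics.exists_mono_homothetic_copy`), for finite sets
`T, Z` in `F` there is a translate `T + μ` such that all differences between the elements of
`T + μ` and `Z` are in one class modulo `q`-th powers. So there are `μ₀, μ₁, …` such that, for `i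
≠ j`, all differences between the elements of `T + μᵢ` and `T + μⱼ` are in one class, for `T = {0,
e, α, 1}`. Let `tᵢ = (u + μᵢ + α) / (u + μᵢ + 1)`, `yᵢ = (u + μᵢ) / (u + μᵢ + e)`, up to `q`-th
powers. For `i ≠ k`, `y k` is in the norm group of `t i`: with `r ^ q = (c' - b) / (c - b)` the
element `1 - r ^ q t = (u + b) (c - c') / ((u + c') (c - b))` is a norm, for `b = μₖ` and
`b = μₖ + e`, and `y k` is the quotient of the two, up to a `q`-th power. But `yᵢ` has a simple zero at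
`u = -μᵢ`, where `tᵢ` is `α`, up to a `q`-th power.
-/

set_option autoImplicit false

namespace Pool.Agent.NFF

open Polynomial Pool.Agent.NIPFields
open scoped IntermediateField

universe u

/-- all differences `d + τ - z`, `τ, z ∈ T`, are in one class modulo `q`-th powers -/
def Good {F : Type u} [Field F] (q : ℕ) (T : Finset F) (d : F) : Prop :=
  ∀ τ ∈ T, ∀ z ∈ T, ∀ τ' ∈ T, ∀ z' ∈ T, d + τ - z ≠ 0 ∧ ∃ w : F, d + τ - z = (d + τ' - z') * w ^ q

private theorem gallai_PatD {F : Type u} [Field F] [CharZero F] {q : ℕ}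
    (hfin : ((powMonoidHom q : Fˣ →* Fˣ).range).FiniteIndex) (S : Finset F) :
    ∃ (a : ℕ) (b : F), 0 < a ∧ ∀ s ∈ S, ∀ s' ∈ S, a • s + b ≠ 0 ∧
      ∃ w : F, a • s + b = (a • s' + b) * w ^ q := by
  classical
  let H := (powMonoidHom q : Fˣ →* Fˣ).range
  have hF : Finite (Fˣ ⧸ H) := Subgroup.finite_quotient_of_finiteIndex
  let C : F → Option (Fˣ ⧸ H) := fun w =>
    if h : w = 0 then none else some (QuotientGroup.mk (Units.mk0 w h))
  obtain ⟨a, ha, b, c, hc⟩ := Combinatorics.exists_mono_homothetic_copy (S ∪ {0, 1}) C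
  have ha' : (a : F) ≠ 0 := by exact_mod_cast (show a ≠ 0 by omega)
  have h0 : C (a • (0 : F) + b) = c := hc 0 (by simp)
  have h1 : C (a • (1 : F) + b) = c := hc 1 (by simp)
  have hcn : c ≠ none := by
    intro hn
    rw [hn] at h0 h1
    have e0 : a • (0 : F) + b = 0 := by
      by_contra hne
      have : C (a • (0 : F) + b) = some (QuotientGroup.mk (Units.mk0 _ hne)) := dif_neg hne
      rw [this] at h0
      exact Option.some_ne_none _ h0
    have e1 : a • (1 : F) + b = 0 := by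
      by_contra hne
      have : C (a • (1 : F) + b) = some (QuotientGroup.mk (Units.mk0 _ hne)) := dif_neg hne
      rw [this] at h1
      exact Option.some_ne_none _ h1
    rw [smul_zero, zero_add] at e0
    rw [e0, add_zero, nsmul_eq_mul, mul_one] at e1
    exact ha' e1
  have hne : ∀ s ∈ S, a • s + b ≠ 0 := by
    intro s hs h
    have h2 : C (a • s + b) = c := hc s (Finset.mem_union_left _ hs)
    have h3 : C (a • s + b) = none := dif_pos h
    exact hcn (h2.symm.trans h3)
  refine ⟨a, b, ha, fun s hs s' hs' => ⟨hne s hs, ?_⟩⟩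
  have h2 : C (a • s + b) = c := hc s (Finset.mem_union_left _ hs)
  have h3 : C (a • s' + b) = c := hc s' (Finset.mem_union_left _ hs')
  have e2 : C (a • s + b) = some (QuotientGroup.mk (Units.mk0 _ (hne s hs))) := dif_neg _
  have e3 : C (a • s' + b) = some (QuotientGroup.mk (Units.mk0 _ (hne s' hs'))) := dif_neg _
  rw [← h3, e2, e3, Option.some.injEq] at h2
  obtain ⟨w, hw⟩ := QuotientGroup.eq.1 h2.symm
  refine ⟨(w : F), ?_⟩
  have h4 : Units.mk0 _ (hne s hs) = Units.mk0 _ (hne s' hs') * w ^ q := by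
    have h5 : w ^ q = (Units.mk0 _ (hne s' hs'))⁻¹ * Units.mk0 _ (hne s hs) := hw
    rw [h5, mul_inv_cancel_left]
  have h5 := congrArg (fun x : Fˣ => (x : F)) h4
  simpa using h5

private theorem seq_PatD {F : Type u} [Field F] [CharZero F] {q : ℕ}
    (hfin : ((powMonoidHom q : Fˣ →* Fˣ).range).FiniteIndex) (T : Finset F) :
    ∃ μ : ℕ → F, ∀ i j, i ≠ j → Good q T (μ j - μ i) := by
  classical
  obtain ⟨μ, -, hμ⟩ := exists_seq_of_forall_finset_exists (fun _ : F => True)
    (fun m m' => Good q T (m' - m)) (by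
      intro M _
      obtain ⟨a, b, ha, hab⟩ := gallai_PatD hfin
        (((T ×ˢ T) ×ˢ M).image fun p => p.1.1 - p.1.2 - p.2)
      have ha' : (a : F) ≠ 0 := by exact_mod_cast (show a ≠ 0 by omega)
      refine ⟨b / a, trivial, fun m hm τ hτ z hz τ' hτ' z' hz' => ?_⟩
      have hmem : ∀ σ ∈ T, ∀ ζ ∈ T, σ - ζ - m ∈
          ((T ×ˢ T) ×ˢ M).image fun p => p.1.1 - p.1.2 - p.2 := by
        intro σ hσ ζ hζ
        exact Finset.mem_image.2 ⟨((σ, ζ), m), by simp [hσ, hζ, hm], rfl⟩
      have hid : ∀ σ ζ : F, b / a - m + σ - ζ = (a • (σ - ζ - m) + b) / a := by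
        intro σ ζ
        rw [nsmul_eq_mul]
        field_simp
        ring
      obtain ⟨h1, w, hw⟩ := hab _ (hmem τ hτ z hz) _ (hmem τ' hτ' z' hz')
      rw [hid, hid]
      refine ⟨div_ne_zero h1 ha', w, ?_⟩
      rw [hw]
      ring)
  refine ⟨μ, fun i j hij => ?_⟩
  rcases lt_or_gt_of_ne hij with h | h
  · exact hμ i j h
  · intro τ hτ z hz τ' hτ' z' hz'
    obtain ⟨h1, w, hw⟩ := hμ j i h z hz τ hτ z' hz' τ' hτ'
    have e1 : μ j - μ i + τ - z = -(μ i - μ j + z - τ) := by ring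
    have e2 : μ j - μ i + τ' - z' = -(μ i - μ j + z' - τ') := by ring
    rw [e1, e2]
    refine ⟨neg_ne_zero.2 h1, w, ?_⟩
    rw [hw]
    ring

/-- the norm of `s - θ` -/
private theorem pow_sub_PatD {K : Type u} [Field K] {q : ℕ} [NeZero q] (s b : K) :
    s ^ q - b ∈ NS q b := by
  rw [← NSR_eq_NS, mem_NSR_iff_adj]
  have hmon : (X ^ q - C b).Monic := monic_X_pow_sub_C b (NeZero.ne q)
  refine ⟨algebraMap K (Adj q b) s - AdjoinRoot.root (X ^ q - C b), ?_⟩
  let pb := AdjoinRoot.powerBasis hmon.ne_zero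
  have h1 : minpoly K pb.gen = X ^ q - C b := by
    have h2 := AdjoinRoot.minpoly_root hmon.ne_zero
    rw [hmon.leadingCoeff, inv_one, C_1, mul_one] at h2
    exact h2
  rw [Algebra.norm_eq_matrix_det pb.basis]
  have h3 : Algebra.leftMulMatrix pb.basis (algebraMap K (Adj q b) s -
      AdjoinRoot.root (X ^ q - C b)) = Matrix.scalar _ s -
        Algebra.leftMulMatrix pb.basis pb.gen := by
    rw [map_sub, AlgHom.commutes]
    rfl
  rw [h3, ← Matrix.eval_charpoly, charpoly_leftMulMatrix, h1]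
  simp

/-- one factor -/
private theorem fac_PatD {K : Type u} [Field K] {q : ℕ} [NeZero q] {U c c' b r : K}
    (hc' : U + c' ≠ 0) (hcb : c - b ≠ 0) (hr : r ≠ 0) (h : c' - b = (c - b) * r ^ q) :
    (U + b) * (c - c') / ((U + c') * (c - b)) ∈ NS q ((U + c) * (U + c') ^ (q - 1)) := by
  have hq : (U + c') ^ q = (U + c') ^ (q - 1) * (U + c') := by
    rw [← pow_succ, Nat.sub_add_cancel (Nat.pos_of_ne_zero (NeZero.ne q))]
  have h1 := pow_sub_PatD (q := q) ((U + c') * r⁻¹) ((U + c) * (U + c') ^ (q - 1))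
  have h2 := NS_mul' h1 (pow_mem_NS (ℓ := q) ((U + c) * (U + c') ^ (q - 1)) (r / (U + c')))
  have hrq : r ^ q ≠ 0 := pow_ne_zero _ hr
  have e : (((U + c') * r⁻¹) ^ q - (U + c) * (U + c') ^ (q - 1)) * (r / (U + c')) ^ q =
      (U + b) * (c - c') / ((U + c') * (c - b)) := by
    rw [mul_pow, div_pow, inv_pow, hq]
    have h3 : (U + c') ^ (q - 1) ≠ 0 := pow_ne_zero _ hc'
    generalize (U + c') ^ (q - 1) = A at *
    have h4 : r ^ q = (c' - b) / (c - b) := by
      rw [h]
      field_simp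
    generalize r ^ q = R at *
    field_simp
    rw [h4]
    field_simp
    ring
  rwa [e] at h2

private theorem off_PatD {K : Type u} [Field K] {q : ℕ} [NeZero q] {U c c' b b' r r' s : K}
    (hc' : U + c' ≠ 0) (hb' : U + b' ≠ 0) (hcc : c - c' ≠ 0) (hcb : c - b ≠ 0) (hcb' : c - b' ≠ 0)
    (hr : r ≠ 0) (hr' : r' ≠ 0) (hs : s ≠ 0) (h : c' - b = (c - b) * r ^ q)
    (h' : c' - b' = (c - b') * r' ^ q) (h'' : c - b' = (c - b) * s ^ q) :
    (U + b) * (U + b') ^ (q - 1) ∈ NS q ((U + c) * (U + c') ^ (q - 1)) := by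
  have h1 := fac_PatD (U := U) hc' hcb hr h
  have h2 := fac_PatD (U := U) hc' hcb' hr' h'
  have h3 := NS_mul' (NS_mul' h1 (NS_inv' h2)) (pow_mem_NS (ℓ := q) _ ((U + b') / s))
  have hq : (U + b') ^ q = (U + b') ^ (q - 1) * (U + b') := by
    rw [← pow_succ, Nat.sub_add_cancel (Nat.pos_of_ne_zero (NeZero.ne q))]
  have e : (U + b) * (c - c') / ((U + c') * (c - b)) *
      ((U + b') * (c - c') / ((U + c') * (c - b')))⁻¹ * ((U + b') / s) ^ q =
      (U + b) * (U + b') ^ (q - 1) := by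
    rw [div_pow, hq]
    have hsq : s ^ q ≠ 0 := pow_ne_zero _ hs
    have h4 : s ^ q = (c - b') / (c - b) := by
      rw [h'']
      field_simp
    generalize (U + b') ^ (q - 1) = A at *
    rw [h4]
    field_simp
  rwa [e] at h3

/-- If the `ℓ ^ a`-th powers have finite index in `Fˣ` and `α` is no `ℓ`-th power, then the norm
relation shatters arbitrarily large sets. -/
theorem shatE_of_finite {F K : Type u} [Field F] [CharZero F] [Field K] [Algebra F K] (u : K)
    (hu : Transcendental F u) [FiniteDimensional F⟮u⟯ K] {ℓ a : ℕ} (hℓ : ℓ.Prime)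
    {ξ α : F} (hξ : IsPrimitiveRoot ξ (4 * ℓ ^ a)) (hα : ∀ w : F, w ^ ℓ ≠ α)
    (hfin : ((powMonoidHom (ℓ ^ a) : Fˣ →* Fˣ).range).FiniteIndex)
    (hN : ¬ ℓ ^ a ∣ Module.finrank F⟮u⟯ K) (n : ℕ) : ShatE (ℓ ^ a) K n := by
  classical
  have hq0 : ℓ ^ a ≠ 0 := pow_ne_zero _ hℓ.ne_zero
  have hNZ : NeZero (ℓ ^ a) := ⟨hq0⟩
  have hα0 : α ≠ 0 := fun h => hα 0 (by rw [h, zero_pow hℓ.ne_zero])
  have hα1 : α ≠ 1 := fun h => hα 1 (by rw [h, one_pow])
  obtain ⟨e, he⟩ := Infinite.exists_notMem_finset ({0, 1, α} : Finset F)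
  have he0 : e ≠ 0 := fun h => he (by simp [h])
  have he1 : e ≠ 1 := fun h => he (by simp [h])
  have heα : e ≠ α := fun h => he (by simp [h])
  obtain ⟨μ, hμ⟩ := seq_PatD hfin ({0, e, α, 1} : Finset F)
  have m0 : (0 : F) ∈ ({0, e, α, 1} : Finset F) := by simp
  have me : e ∈ ({0, e, α, 1} : Finset F) := by simp
  have mα : α ∈ ({0, e, α, 1} : Finset F) := by simp
  have m1 : (1 : F) ∈ ({0, e, α, 1} : Finset F) := by simp
  have hinj : Function.Injective (algebraMap F K) := (algebraMap F K).injective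
  have hu0 : ∀ c : F, u + algebraMap F K c ≠ 0 := by
    intro c hc
    have h1 : u = algebraMap F K (-c) := by
      rw [map_neg]
      linear_combination hc
    rw [h1] at hu
    exact hu (isAlgebraic_algebraMap (-c))
  have hsub : ∀ c c' : F, algebraMap F K c - algebraMap F K c' = algebraMap F K (c - c') :=
    fun c c' => (map_sub _ _ _).symm
  have hne : ∀ c : F, c ≠ 0 → algebraMap F K c ≠ 0 := fun c hc => by
    rwa [Ne, map_eq_zero]
  refine shatE_of_matrix
    (fun i : Fin n => (u + algebraMap F K (μ i + α)) * (u + algebraMap F K (μ i + 1)) ^ (ℓ ^ a - 1))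
    (fun k : Fin n => (u + algebraMap F K (μ k + 0)) * (u + algebraMap F K (μ k + e)) ^ (ℓ ^ a - 1))
    (fun i => mul_ne_zero (hu0 _) (pow_ne_zero _ (hu0 _))) (fun i k hik => ?_) (fun i => ?_)
  · have hki : (k : ℕ) ≠ (i : ℕ) := fun h => hik (Fin.ext h)
    have hG := hμ (k : ℕ) (i : ℕ) hki
    -- `c' - b`, `c - b`
    obtain ⟨-, r, hr⟩ := hG 1 m1 0 m0 α mα 0 m0
    obtain ⟨-, r', hr'⟩ := hG 1 m1 e me α mα e me
    obtain ⟨-, s, hs⟩ := hG α mα e me α mα 0 m0
    have n1 := (hG α mα 0 m0 α mα 0 m0).1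
    have n2 := (hG α mα e me α mα e me).1
    have n3 := (hG 1 m1 0 m0 α mα 0 m0).1
    have n4 := (hG 1 m1 e me α mα e me).1
    have z1 : μ i + α - (μ k + 0) = μ i - μ k + α - 0 := by ring
    have z2 : μ i + α - (μ k + e) = μ i - μ k + α - e := by ring
    have z3 : μ i + 1 - (μ k + 0) = μ i - μ k + 1 - 0 := by ring
    have z4 : μ i + 1 - (μ k + e) = μ i - μ k + 1 - e := by ring
    have hr0 : r ≠ 0 := by
      rintro rfl
      rw [zero_pow hq0, mul_zero] at hr
      exact n3 hr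
    have hr0' : r' ≠ 0 := by
      rintro rfl
      rw [zero_pow hq0, mul_zero] at hr'
      exact n4 hr'
    have hs0 : s ≠ 0 := by
      rintro rfl
      rw [zero_pow hq0, mul_zero] at hs
      exact n2 hs
    refine off_PatD (r := algebraMap F K r) (r' := algebraMap F K r') (s := algebraMap F K s)
      (hu0 _) (hu0 _) ?_ ?_ ?_ (hne _ hr0) (hne _ hr0') (hne _ hs0) ?_ ?_ ?_
    · rw [hsub]
      refine hne _ ?_
      have : μ i + α - (μ i + 1) = α - 1 := by ring
      rw [this]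
      exact sub_ne_zero.2 hα1
    · rw [hsub, z1]
      exact hne _ n1
    · rw [hsub, z2]
      exact hne _ n2
    · rw [hsub, hsub, z3, z1, hr, map_mul, map_pow]
    · rw [hsub, hsub, z4, z2, hr', map_mul, map_pow]
    · rw [hsub, hsub, z2, z1, hs, map_mul, map_pow]
  · have hI : ∃ i : F, i ^ 2 = -1 := by
      refine ⟨ξ ^ (ℓ ^ a), ?_⟩
      have h1 : IsPrimitiveRoot (ξ ^ (ℓ ^ a)) 4 := by
        refine hξ.pow (by positivity) (by ring)
      have h2 : IsPrimitiveRoot ((ξ ^ (ℓ ^ a)) ^ 2) 2 := h1.pow (by norm_num) (by norm_num)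
      exact h2.eq_neg_one_of_two_right
    have hirr : Irreducible (X ^ ℓ ^ a - C (aeval (-(μ i)) ((X + C (μ i + α)) *
        (X + C (μ i + 1)) ^ (ℓ ^ a - 1) : F[X])) : F[X]) := by
      have h1 : aeval (-(μ i)) ((X + C (μ i + α)) * (X + C (μ i + 1)) ^ (ℓ ^ a - 1) : F[X]) =
          α := by
        simp
      rw [h1]
      exact irr_of_not_pow hℓ hI hα a
    have hroot : (((X + C (μ i + 0)) * (X + C (μ i + e)) ^ (ℓ ^ a - 1) : F[X]).map
        (algebraMap F F)).rootMultiplicity (-(μ i)) = 1 := by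
      have h0 : (X + C (μ i + 0) : F[X]) = X - C (-(μ i)) := by
        rw [add_zero, map_neg, sub_neg_eq_add]
      have h1 : (X + C (μ i + 0) : F[X]) ≠ 0 := X_add_C_ne_zero _
      have h2 : ((X + C (μ i + e)) ^ (ℓ ^ a - 1) : F[X]) ≠ 0 :=
        pow_ne_zero _ (X_add_C_ne_zero _)
      rw [Algebra.algebraMap_self, Polynomial.map_id, rootMultiplicity_mul (mul_ne_zero h1 h2)]
      have h3 : rootMultiplicity (-(μ i)) (X + C (μ i + 0) : F[X]) = 1 := by
        rw [h0]
        exact rootMultiplicity_X_sub_C_self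
      have h4 : rootMultiplicity (-(μ i)) ((X + C (μ i + e)) ^ (ℓ ^ a - 1) : F[X]) = 0 := by
        refine rootMultiplicity_eq_zero ?_
        rw [IsRoot.def, eval_pow, eval_add, eval_X, eval_C]
        have h5 : -μ i + (μ i + e) = e := by ring
        rw [h5]
        exact pow_ne_zero _ he0
      rw [h3, h4]
    have h := notMem_NS u hu hN F (-(μ i)) _ _ hirr hroot
    simpa using h

end Pool.Agent.NFF
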