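import Mathlib

/-!
# Rational function fields have infinitely many classes (package NFF-RatInf)
-/

set_option autoImplicit false

namespace Pool.Agent.NFF

open Polynomial
open scoped IntermediateField

universe u

/-- The powers are separated by the multiplicity of the root `c`. -/
private theorem poly_ne {E : Type u} [Field E] {ℓ : ℕ} (hℓ : ℓ.Prime) {c c' : E} (hc : c ≠ c')
    {r s : E[X]} (hr : r ≠ 0) (hs : s ≠ 0) :
    (X - C c) * r ^ ℓ ≠ (X - C c') * s ^ ℓ := by
  classical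
  intro h
  have h1 := congrArg (fun p : E[X] => p.roots.count c) h
  rw [roots_mul (mul_ne_zero (X_sub_C_ne_zero c) (pow_ne_zero ℓ hr)),
    roots_mul (mul_ne_zero (X_sub_C_ne_zero c') (pow_ne_zero ℓ hs)), roots_pow, roots_pow,
    Multiset.count_add, Multiset.count_add, Multiset.count_nsmul, Multiset.count_nsmul,
    roots_X_sub_C, roots_X_sub_C, Multiset.count_singleton_self,
    Multiset.count_singleton, if_neg hc, zero_add] at h1
  have h2 : ℓ ∣ 1 := (Nat.dvd_add_left (Dvd.intro _ rfl)).1 (h1 ▸ Dvd.intro _ rfl)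
  exact hℓ.one_lt.ne' (Nat.dvd_one.1 h2)

/-- PROOF. For `c ∈ E` let `P c = t - c ∈ E⟮t⟯`, a unit (`t` is transcendental). For `c ≠ c'` the
quotient `P c / P c'` is no `ℓ`-th power: every element of `E⟮t⟯` is `aeval t r / aeval t s`
(`IntermediateField.mem_adjoin_simple_iff`), and `(X - C c) * s ^ ℓ = (X - C c') * r ^ ℓ` in
`E[X]` (injectivity of `aeval t`) is impossible, by the root multiplicities at `c`: `1 + ℓ a = ℓ
b`. `E` is infinite (characteristic `0`), so there are infinitely many cosets, and the index is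
not finite (`Subgroup.FiniteIndex` gives `Finite (G ⧸ H)`,
`Subgroup.finite_quotient_of_finiteIndex`; `QuotientGroup.eq`). -/
theorem not_finiteIndex_adjoin {E K : Type u} [Field E] [CharZero E] [Field K] [Algebra E K]
    (t : K) (ht : Transcendental E t) {ℓ : ℕ} (hℓ : ℓ.Prime) :
    ¬ ((powMonoidHom ℓ : (E⟮t⟯)ˣ →* (E⟮t⟯)ˣ).range).FiniteIndex := by
  intro hfin
  have hinj : ∀ p q : E[X], aeval t p = aeval t q → p = q := fun p q h =>
    transcendental_iff_injective.1 ht h
  have hmem : ∀ c : E, t - algebraMap E K c ∈ E⟮t⟯ := fun c =>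
    sub_mem (IntermediateField.mem_adjoin_simple_self E t) (algebraMap_mem _ c)
  have hne : ∀ c : E, (⟨t - algebraMap E K c, hmem c⟩ : E⟮t⟯) ≠ 0 := by
    intro c h
    have h1 : t - algebraMap E K c = 0 := congrArg Subtype.val h
    have h2 : aeval t (X - C c) = aeval t (0 : E[X]) := by
      rw [map_sub, aeval_X, aeval_C, map_zero, h1]
    exact X_sub_C_ne_zero c (hinj _ _ h2)
  let P : E → (E⟮t⟯)ˣ := fun c => Units.mk0 _ (hne c)
  have hPinj : Function.Injective
      (fun c : E => (P c : (E⟮t⟯)ˣ ⧸ (powMonoidHom ℓ : (E⟮t⟯)ˣ →* (E⟮t⟯)ˣ).range)) := by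
    intro c c' h
    by_contra hcc
    obtain ⟨z, hz⟩ := QuotientGroup.eq.1 h
    have hz1 : P c * z ^ ℓ = P c' := by
      rw [← powMonoidHom_apply, hz, mul_inv_cancel_left]
    have hz2 : (t - algebraMap E K c) * ((z : E⟮t⟯) : K) ^ ℓ = t - algebraMap E K c' :=
      congrArg (fun w : (E⟮t⟯)ˣ => ((w : E⟮t⟯) : K)) hz1
    have hz0 : ((z : E⟮t⟯) : K) ≠ 0 := fun h0 => z.ne_zero (Subtype.ext h0)
    obtain ⟨r, s, hrs⟩ := (IntermediateField.mem_adjoin_simple_iff E _).1 (z : E⟮t⟯).2
    rw [hrs] at hz0 hz2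
    have hs0 : aeval t s ≠ 0 := fun h0 => hz0 (by rw [h0, div_zero])
    have hr0 : aeval t r ≠ 0 := fun h0 => hz0 (by rw [h0, zero_div])
    have hr : r ≠ 0 := fun h0 => hr0 (by rw [h0, map_zero])
    have hs : s ≠ 0 := fun h0 => hs0 (by rw [h0, map_zero])
    refine poly_ne hℓ hcc hr hs (hinj _ _ ?_)
    rw [map_mul, map_mul, map_pow, map_pow, map_sub, map_sub, aeval_X, aeval_C, aeval_C, ← hz2,
      div_pow]
    field_simp
  have hfin' : Finite ((E⟮t⟯)ˣ ⧸ (powMonoidHom ℓ : (E⟮t⟯)ˣ →* (E⟮t⟯)ˣ).range) :=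
    Subgroup.finite_quotient_of_finiteIndex
  have h1 : Infinite E := inferInstance
  exact not_finite_iff_infinite.2 h1 (Finite.of_injective _ hPinj)

end Pool.Agent.NFF
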