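import Mathlib

/-!
# Finitely generated extensions (package NFF-Tower)
-/

set_option autoImplicit false

namespace Pool.Agent.NFF

open Polynomial
open scoped IntermediateField

universe u

private theorem Tower_alg {L₀ L K : Type u} [Field L₀] [Field L] [Field K] [Algebra L₀ K]
    [Algebra L K] (h : ∀ y : L₀, ∃ z : L, algebraMap L K z = algebraMap L₀ K y) {x : K}
    (hx : IsAlgebraic L₀ x) : IsAlgebraic L x := by
  obtain ⟨p, hp0, hp⟩ := hx
  have h1 : p.map (algebraMap L₀ K) ∈ Polynomial.lifts (algebraMap L K) := by
    rw [Polynomial.lifts_iff_coeff_lifts]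
    intro n
    rw [Polynomial.coeff_map]
    obtain ⟨z, hz⟩ := h (p.coeff n)
    exact ⟨z, hz⟩
  obtain ⟨q, hq⟩ := (Polynomial.mem_lifts _).1 h1
  refine ⟨q, ?_, ?_⟩
  · rintro rfl
    rw [Polynomial.map_zero] at hq
    exact hp0 ((Polynomial.map_eq_zero _).1 hq.symm)
  · rw [Polynomial.aeval_def, Polynomial.eval₂_eq_eval_map, hq,
      ← Polynomial.eval₂_eq_eval_map, ← Polynomial.aeval_def, hp]

private theorem Tower_top {k K : Type u} [Field k] [Field K] [Algebra k K] {S : Set K}
    (hS : IntermediateField.adjoin k S = ⊤) (L : IntermediateField k K) :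
    IntermediateField.adjoin L S = ⊤ := by
  rw [eq_top_iff]
  intro x _
  have h1 : IntermediateField.adjoin k S ≤
      (IntermediateField.adjoin L S).restrictScalars k := by
    rw [IntermediateField.adjoin_le_iff]
    exact IntermediateField.subset_adjoin L S
  have h2 : x ∈ IntermediateField.adjoin k S := by
    rw [hS]
    exact IntermediateField.mem_top
  exact h1 h2

private theorem Tower_fin {L K : Type u} [Field L] [Field K] [Algebra L K] (S : Finset K)
    (hS : IntermediateField.adjoin L (S : Set K) = ⊤) (h : ∀ x : K, IsAlgebraic L x) :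
    FiniteDimensional L K := by
  have h1 : FiniteDimensional L (IntermediateField.adjoin L (S : Set K)) :=
    IntermediateField.finiteDimensional_adjoin (fun x _ => (h x).isIntegral)
  rw [hS] at h1
  exact (IntermediateField.topEquiv (F := L) (E := K)).toLinearEquiv.finiteDimensional

/-- A finitely generated extension which is not algebraic is finite over `F(u)`, or over `E(t)(u)`.

PROOF. There is a transcendence basis `B ⊆ S` of `K` over `F`
(`exists_isTranscendenceBasis_subset` or similar: `K` is algebraic over `adjoin F S = ⊤`), finite,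
not empty (`hna`). `K` is algebraic and finitely generated, so finite over `adjoin F B`. If `B =
{u}`: the first case. Otherwise take `t ≠ u` in `B`, `E = adjoin F (B \ {t, u})`; `t` is
transcendental over `E` and `u` over `E⟮t⟯` (algebraic independence of `B`; e.g.
`AlgebraicIndependent` lemmas for `insert`, `AlgebraicIndependent.transcendental_adjoin` /
`algebraicIndependent_adjoin`...), and `E⟮t⟯⟮u⟯` is `adjoin F B` with another base, so `K` is
finite over it. (Alternative without `B`: choose a subset `A` of `S`, maximal with `S \ A`... such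
that `K` is not algebraic over `adjoin F A`; then for `u ∈ S \ A` transcendental over `E₁ = adjoin
F A`, `K` is algebraic over `E₁⟮u⟯` by maximality. If `A`'s field `E₁` is algebraic over `F`, then
`u` is transcendental over `F` and `K` is algebraic over `F⟮u⟯`: first case. If not, some `t ∈ A`
is transcendental over `E = adjoin F (a part of A)` and `E₁` is algebraic over `E⟮t⟯` in the same
way; then `u` is transcendental over `E⟮t⟯` and `K` is algebraic over `E⟮t⟯⟮u⟯`. In all cases a
finitely generated algebraic extension is finite: `IntermediateField.finiteDimensional_adjoin`.)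
-/
theorem tower {F K : Type u} [Field F] [Field K] [Algebra F K] (S : Finset K)
    (hS : IntermediateField.adjoin F (S : Set K) = ⊤) (hna : ¬ Algebra.IsAlgebraic F K) :
    (∃ u : K, Transcendental F u ∧ FiniteDimensional F⟮u⟯ K) ∨
      ∃ (E : IntermediateField F K) (t u : K), Transcendental E t ∧ Transcendental E⟮t⟯ u ∧
        FiniteDimensional E⟮t⟯⟮u⟯ K := by
  classical
  have hSalg : Algebra.IsAlgebraic (Algebra.adjoin F (S : Set K)) K := by
    rw [← IntermediateField.isAlgebraic_adjoin_iff_top]
    refine ⟨fun x => ?_⟩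
    have h1 : x ∈ IntermediateField.adjoin F (S : Set K) := by
      rw [hS]
      exact IntermediateField.mem_top
    exact isAlgebraic_algebraMap
      (⟨x, h1⟩ : IntermediateField.adjoin F (S : Set K))
  obtain ⟨B, -, hB⟩ := exists_isTranscendenceBasis_subset (R := F) (S : Set K)
  have halg : ∀ x : K, IsAlgebraic (IntermediateField.adjoin F B) x := by
    have h1 := hB.isAlgebraic_field
    rw [Subtype.range_coe] at h1
    exact h1.isAlgebraic
  have htr : ∀ (A : Set K) (x : K), A ⊆ B → x ∈ B → x ∉ A →
      Transcendental (IntermediateField.adjoin F A) x := by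
    intro A x hA hx hxA
    rw [IntermediateField.transcendental_adjoin_iff]
    have h1 := hB.1.transcendental_adjoin (s := {b : B | (b : K) ∈ A}) (i := ⟨x, hx⟩) hxA
    have h2 : ((↑) : B → K) '' {b : B | (b : K) ∈ A} = A := by
      ext y
      constructor
      · rintro ⟨b, hb, rfl⟩
        exact hb
      · intro hy
        exact ⟨⟨y, hA hy⟩, hy, rfl⟩
    rwa [h2] at h1
  have hne : B.Nonempty := by
    by_contra hcon
    apply hna
    rw [← hB.isEmpty_iff_isAlgebraic]
    rw [Set.not_nonempty_iff_eq_empty] at hcon
    rw [hcon]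
    infer_instance
  obtain ⟨u, hu⟩ := hne
  by_cases hBu : B = {u}
  · left
    refine ⟨u, hB.1.transcendental ⟨u, hu⟩, ?_⟩
    refine Tower_fin S (Tower_top hS _) ?_
    rw [hBu] at halg
    exact halg
  · right
    obtain ⟨t, ht, htu⟩ : ∃ t ∈ B, t ≠ u := by
      by_contra hcon
      push Not at hcon
      exact hBu (Set.eq_singleton_iff_unique_mem.2 ⟨hu, hcon⟩)
    set E : IntermediateField F K := IntermediateField.adjoin F (B \ {t, u}) with hE
    have hEmem : ∀ x ∈ B, x ≠ t → x ≠ u → x ∈ E := by
      intro x hx h1 h2
      refine IntermediateField.subset_adjoin F _ ⟨hx, ?_⟩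
      rintro (h3 | h3)
      · exact h1 h3
      · exact h2 h3
    refine ⟨E, t, u, ?_, ?_, ?_⟩
    · exact htr _ t Set.sdiff_subset ht (fun h => h.2 (Or.inl rfl))
    · have h1 : Transcendental (IntermediateField.adjoin F (B \ {u})) u :=
        htr _ u Set.sdiff_subset hu (fun h => h.2 rfl)
      intro hcon
      apply h1
      refine Tower_alg (L₀ := E⟮t⟯) (L := IntermediateField.adjoin F (B \ {u})) ?_ hcon
      have h2 : E ≤ IntermediateField.adjoin F (B \ {u}) := by
        refine IntermediateField.adjoin.mono F _ _ ?_
        rintro x ⟨hx, hx'⟩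
        exact ⟨hx, fun h => hx' (Or.inr h)⟩
      have h3 : E⟮t⟯ ≤ IntermediateField.extendScalars h2 := by
        rw [IntermediateField.adjoin_simple_le_iff]
        exact IntermediateField.subset_adjoin F _ ⟨ht, htu⟩
      intro y
      exact ⟨⟨(y : K), h3 y.2⟩, rfl⟩
    · have hS1 := Tower_top (Tower_top (Tower_top hS E) E⟮t⟯) E⟮t⟯⟮u⟯
      refine Tower_fin S hS1 fun x => ?_
      refine Tower_alg (L₀ := IntermediateField.adjoin F B) ?_ (halg x)
      have h1 : IntermediateField.adjoin F B ≤
          ((E⟮t⟯⟮u⟯).restrictScalars E).restrictScalars F := by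
        rw [IntermediateField.adjoin_le_iff]
        intro x hx
        show x ∈ E⟮t⟯⟮u⟯
        by_cases hxu : x = u
        · rw [hxu]
          exact IntermediateField.mem_adjoin_simple_self _ u
        by_cases hxt : x = t
        · rw [hxt]
          exact (E⟮t⟯⟮u⟯).algebraMap_mem
            (⟨t, IntermediateField.mem_adjoin_simple_self E t⟩ : E⟮t⟯)
        · exact (E⟮t⟯⟮u⟯).algebraMap_mem
            (⟨x, E⟮t⟯.algebraMap_mem (⟨x, hEmem x hx hxt hxu⟩ : E)⟩ : E⟮t⟯)
      intro y
      exact ⟨⟨(y : K), h1 y.2⟩, rfl⟩

end Pool.Agent.NFF
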