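import Pool.Agent.NFF.PatB
import Pool.Agent.NFF.PatD
import Pool.Agent.NFF.IndEx
import Pool.Agent.NFF.IndExt
import Pool.Agent.NFF.RatInf
import Pool.Agent.NFF.Comp
import Pool.Agent.NFF.Closed
import Pool.Agent.NFF.Tower

/-!
# NIP function fields
-/

set_option autoImplicit false

namespace Pool.Agent.NFF

open Polynomial FirstOrder FirstOrder.Language FirstOrder.Ring
open Pool.Agent.NIPFields Pool.Agent.NIPFields.NA Pool.Agent.NIPFields.LG
open scoped IntermediateField

universe u

/-- The exponent can be chosen. -/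
theorem exists_exp {ℓ : ℕ} (hℓ : ℓ.Prime) (N : ℕ) : ∃ a : ℕ, 0 < a ∧ N < ℓ ^ a :=
  ⟨N + 1, Nat.succ_pos N, (Nat.lt_succ_self N).trans (Nat.lt_pow_self hℓ.one_lt)⟩

/-- The `ℓ`-th powers have finite index. -/
theorem finiteIndex {F K : Type u} [Field F] [CharZero F] [Field K] [CompatibleRing K]
    [Algebra F K] (hK : NIP K) (u : K) (hu : Transcendental F u) [FiniteDimensional F⟮u⟯ K]
    {ℓ : ℕ} (hℓ : ℓ.Prime) : ((powMonoidHom ℓ : Fˣ →* Fˣ).range).FiniteIndex := by
  by_contra hcon
  obtain ⟨a, ha, haN⟩ := exists_exp hℓ (Module.finrank F⟮u⟯ K)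
  let F₁ := CyclotomicField (4 * ℓ ^ a) F
  have hne : NeZero (4 * ℓ ^ a) := ⟨by have := hℓ.pos; positivity⟩
  have hfd : FiniteDimensional F F₁ := IsCyclotomicExtension.finiteDimensional {4 * ℓ ^ a} F F₁
  have hξ : IsPrimitiveRoot (IsCyclotomicExtension.zeta (4 * ℓ ^ a) F F₁) (4 * ℓ ^ a) :=
    IsCyclotomicExtension.zeta_spec _ _ _
  have h1 : ¬ ((powMonoidHom ℓ : F₁ˣ →* F₁ˣ).range).FiniteIndex := not_finiteIndex_ext hℓ hcon
  obtain ⟨K₁, _, _, _, hfd₁, u₁, hu₁, hfd₂, hle⟩ := exists_compositum F₁ u hu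
  have hch : CharZero F₁ := charZero_of_injective_algebraMap (algebraMap F F₁).injective
  let _ : CompatibleRing K₁ := compatibleRingOfRing K₁
  have hK₁ : NIP K₁ := hK.finite (Module.finBasis K K₁)
  obtain ⟨n, hn⟩ := hK₁.exists_not_shatE (ℓ ^ a)
  obtain ⟨x, hx⟩ := exists_ind hℓ h1 n
  refine hn (shatE_of_ind u₁ hu₁ hℓ ha hξ (fun hd => ?_) x hx)
  have h2 := Nat.le_of_dvd Module.finrank_pos hd
  omega

/-- The `ℓ`-th powers have finite index in every finite extension of the constant field. -/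
theorem finiteIndex_ext {F K : Type u} [Field F] [CharZero F] [Field K] [CompatibleRing K]
    [Algebra F K] (hK : NIP K) (u : K) (hu : Transcendental F u) [FiniteDimensional F⟮u⟯ K]
    (F' : Type u) [Field F'] [Algebra F F'] [FiniteDimensional F F'] {ℓ : ℕ} (hℓ : ℓ.Prime) :
    ((powMonoidHom ℓ : F'ˣ →* F'ˣ).range).FiniteIndex := by
  obtain ⟨K₁, _, _, _, hfd₁, u₁, hu₁, hfd₂, -⟩ := exists_compositum F' u hu
  have hch : CharZero F' := charZero_of_injective_algebraMap (algebraMap F F').injective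
  let _ : CompatibleRing K₁ := compatibleRingOfRing K₁
  have hK₁ : NIP K₁ := hK.finite (Module.finBasis K K₁)
  exact finiteIndex hK₁ u₁ hu₁ hℓ

/-- If the `n`-th powers have finite index, so have the `n ^ a`-th powers. -/
theorem finiteIndex_pow {G : Type u} [CommGroup G] {n : ℕ}
    (h : ((powMonoidHom n : G →* G).range).FiniteIndex) (a : ℕ) :
    ((powMonoidHom (n ^ a) : G →* G).range).FiniteIndex := by
  induction a with
  | zero =>
    have h1 : (powMonoidHom (n ^ 0) : G →* G).range = ⊤ := by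
      rw [eq_top_iff]
      intro x _
      exact ⟨x, by simp⟩
    rw [h1]
    infer_instance
  | succ a ih =>
    have h1 : (powMonoidHom (n ^ (a + 1)) : G →* G).range =
        ((powMonoidHom n : G →* G).range).map (powMonoidHom (n ^ a) : G →* G) := by
      ext x
      simp only [MonoidHom.mem_range, powMonoidHom_apply, Subgroup.mem_map,
        exists_exists_eq_and]
      refine exists_congr fun y => ?_
      rw [← pow_mul, pow_succ, mul_comm]
    rw [h1]
    refine ⟨?_⟩
    rw [Subgroup.index_map]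
    have h2 : ((powMonoidHom n : G →* G).range ⊔ (powMonoidHom (n ^ a) : G →* G).ker).index ≠ 0 :=
      (Subgroup.finiteIndex_of_le le_sup_left).index_ne_zero
    exact mul_ne_zero h2 ih.index_ne_zero

/-- The constant field is algebraically closed or real closed. -/
theorem constant {F K : Type u} [Field F] [CharZero F] [Field K] [CompatibleRing K]
    [Algebra F K] (hK : NIP K) (u : K) (hu : Transcendental F u) [FiniteDimensional F⟮u⟯ K] :
    IsAlgClosed F ∨ Module.finrank F (AlgebraicClosure F) = 2 := by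
  by_contra hcon
  push Not at hcon
  obtain ⟨ℓ, hℓ, h1⟩ := exists_ext_not_pow hcon.1 hcon.2
  obtain ⟨a, ha, haN⟩ := exists_exp hℓ (Module.finrank F⟮u⟯ K)
  obtain ⟨F₁, _, _, hfd, ξ, α, hξ, hα⟩ := h1 a
  obtain ⟨K₁, _, _, _, hfd₁, u₁, hu₁, hfd₂, hle⟩ := exists_compositum F₁ u hu
  have hch : CharZero F₁ := charZero_of_injective_algebraMap (algebraMap F F₁).injective
  let _ : CompatibleRing K₁ := compatibleRingOfRing K₁
  have hK₁ : NIP K₁ := hK.finite (Module.finBasis K K₁)
  obtain ⟨n, hn⟩ := hK₁.exists_not_shatE (ℓ ^ a)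
  have hfin : ((powMonoidHom (ℓ ^ a) : F₁ˣ →* F₁ˣ).range).FiniteIndex :=
    finiteIndex_pow (finiteIndex hK₁ u₁ hu₁ hℓ) a
  refine hn (shatE_of_finite u₁ hu₁ hℓ hξ hα hfin (fun hd => ?_) n)
  have h2 := Nat.le_of_dvd Module.finrank_pos hd
  omega

/-- The transcendence degree is one. -/
theorem trdeg_one {F K : Type u} [Field F] [CharZero F] [Field K] [CompatibleRing K]
    [Algebra F K] (hK : NIP K) (S : Finset K)
    (hS : IntermediateField.adjoin F (S : Set K) = ⊤) (hna : ¬ Algebra.IsAlgebraic F K) :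
    ∃ u : K, Transcendental F u ∧ FiniteDimensional F⟮u⟯ K := by
  rcases tower S hS hna with h | ⟨E, t, u, ht, hu, hfd⟩
  · exact h
  · exfalso
    have hE : CharZero E := charZero_of_injective_algebraMap (algebraMap F E).injective
    have hEt : CharZero E⟮t⟯ := charZero_of_injective_algebraMap (algebraMap E E⟮t⟯).injective
    exact not_finiteIndex_adjoin t ht Nat.prime_two (finiteIndex (F := E⟮t⟯) hK u hu Nat.prime_two)

end Pool.Agent.NFF
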