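import Pool.Agent.NIPFields.Phi

/-!
# Norms of values of the norm form
-/

set_option autoImplicit false

namespace Pool.Agent.NFF

open Polynomial Pool.Agent.NIPFields

universe u

variable {q : ℕ} [NeZero q]

open TensorProduct in
/-- The norm of a value of the norm form is a value of the norm form. -/
theorem norm_mem_NSR_free {R S : Type u} [CommRing R] [Nontrivial R] [CommRing S] [Algebra R S]
    [Module.Free R S] [Module.Finite R S] (c : R) (x : S) (hx : x ∈ NSR q (algebraMap R S c)) :
    Algebra.norm R x ∈ NSR q c := by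
  let S' := Adj q c
  let T := S ⊗[R] S'
  let B : Module.Basis (Fin q) S T := Algebra.TensorProduct.basis S (adjBasis q c)
  have hB : ∀ i, B i = ((1 : S) ⊗ₜ[R] (AdjoinRoot.root (X ^ q - C c))) ^ (i : ℕ) := by
    intro i
    rw [Algebra.TensorProduct.basis_apply, adjBasis_apply, Algebra.TensorProduct.tmul_pow,
      one_pow]
  have hγ : ((1 : S) ⊗ₜ[R] (AdjoinRoot.root (X ^ q - C c)) : T) ^ q =
      algebraMap S T (algebraMap R S c) := by
    rw [Algebra.TensorProduct.tmul_pow, one_pow, adj_root_pow,
      Algebra.TensorProduct.algebraMap_apply, Algebra.algebraMap_eq_smul_one,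
      TensorProduct.tmul_smul, Algebra.algebraMap_eq_smul_one, ← TensorProduct.smul_tmul']
    exact (algebraMap_smul S c _).symm
  obtain ⟨t, rfl⟩ := (mem_NSR_iff B _ _ hB hγ x).1 hx
  let T' := S' ⊗[R] S
  let e : T ≃ₐ[R] T' := Algebra.TensorProduct.comm R S S'
  have hfree : Module.Free S T := Module.Free.of_basis B
  let B' := Algebra.TensorProduct.basis S' (Module.Free.chooseBasis R S)
  have hfree' : Module.Free S' T' := Module.Free.of_basis B'
  have h1 : Algebra.norm R (Algebra.norm S t) = Algebra.norm R t := Algebra.norm_norm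
  have h2 : Algebra.norm R (Algebra.norm S' (e t)) = Algebra.norm R (e t) := Algebra.norm_norm
  have h3 : Algebra.norm R (e t) = Algebra.norm R t := Algebra.norm_eq_of_algEquiv e t
  rw [h1, ← h3, ← h2]
  exact norm_adj_mem c _

/-- The `N`-th power of an element of `K₀` which is a value of the norm form over `K` is a value
over `K₀`, `N = [K : K₀]`. -/
theorem pow_mem_NS_of_finite {K₀ K : Type u} [Field K₀] [Field K] [Algebra K₀ K]
    [FiniteDimensional K₀ K] (c y : K₀) (h : algebraMap K₀ K y ∈ NS q (algebraMap K₀ K c)) :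
    y ^ Module.finrank K₀ K ∈ NS q c := by
  have h1 := norm_mem_NSR_free (R := K₀) (S := K) c _ h
  rwa [Algebra.norm_algebraMap] at h1

end Pool.Agent.NFF
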