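import Pool.Agent.NIPFields.Phi

/-!
# The multiplicity of a root of a norm (package NFF-Val)
-/

set_option autoImplicit false

namespace Pool.Agent.NFF

open Polynomial Pool.Agent.NIPFields

universe u

/-- The multiplicity of a power. -/
private theorem rm_pow {E : Type u} [Field E] (g : E) (f : E[X]) (hf : f ≠ 0) (n : ℕ) :
    (f ^ n).rootMultiplicity g = n * f.rootMultiplicity g := by
  induction n with
  | zero =>
    rw [pow_zero, zero_mul]
    refine rootMultiplicity_eq_zero ?_
    rw [IsRoot.def, eval_one]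
    exact one_ne_zero
  | succ n ih =>
    rw [pow_succ, rootMultiplicity_mul (mul_ne_zero (pow_ne_zero _ hf) hf), ih]
    ring

/-- The common power of `X - g`. -/
private theorem exists_common {E : Type u} [Field E] {q : ℕ} (g : E) (p : Fin q → E[X])
    (hp : ∃ i, p i ≠ 0) :
    ∃ (m : ℕ) (p' : Fin q → E[X]), (∀ i, p i = (X - C g) ^ m * p' i) ∧ ∃ i, (p' i).eval g ≠ 0 := by
  classical
  have hex : ∃ k : ℕ, ¬ ∀ i, (X - C g) ^ k ∣ p i := by
    obtain ⟨i, hi⟩ := hp
    refine ⟨(p i).rootMultiplicity g + 1, fun hall => ?_⟩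
    have h1 := (le_rootMultiplicity_iff hi).2 (hall i)
    omega
  have hk := Nat.find_spec hex
  have hlt := fun m (hm : m < Nat.find hex) => not_not.1 (Nat.find_min hex hm)
  have h0 : Nat.find hex ≠ 0 := by
    intro h0
    rw [h0] at hk
    exact hk (fun i => by rw [pow_zero]; exact one_dvd _)
  obtain ⟨m, hm⟩ := Nat.exists_eq_succ_of_ne_zero h0
  have hP := hlt m (by omega)
  choose p' hp' using hP
  refine ⟨m, p', hp', ?_⟩
  rw [hm] at hk
  push Not at hk
  obtain ⟨i, hi⟩ := hk
  refine ⟨i, fun h1 => hi ?_⟩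
  obtain ⟨r, hr⟩ := dvd_iff_isRoot.2 (IsRoot.def.2 h1)
  refine ⟨r, ?_⟩
  rw [hp' i, Nat.succ_eq_add_one, pow_succ, mul_assoc, ← hr]

/-- Let `X ^ q - x(g)` be irreducible over `E`. If `g` is a simple root of `y` and `d ^ q * y ^ N`
is a value of the norm form of `E[X][T] / (T ^ q - x)`, then `q` divides `N`.

PROOF. Not all `p i` are `0`, since otherwise `det = 0` (the matrix `nmat q x 0` is `0`), but `d ≠
0` and `y ≠ 0` (`rootMultiplicity g 0 = 0`). Let `m` be the minimum of the root multiplicities at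
`g` of the `p i ≠ 0`; `p i = (X - C g) ^ m * p' i` for all `i`, and `p' i (g) ≠ 0` for some `i`.
As `nmat q x (c * z) = c • nmat q x z`, `det (nmat q x p) = (X - C g) ^ (m * q) * D`, `D = det
(nmat q x p')` (`Matrix.det_smul`). By `nmat_map` for `evalRingHom g`, `D(g) = det (nmat q x(g)
(p'(g)))`, which is the norm of the element `∑ p' i (g) • adjBasis i` of `Adj q x(g)`
(`norm_eq_det'` with `adjBasis`, `NIPFields/NormRing.lean`); `Adj q x(g)` is a field because `X ^
q - x(g)` is irreducible, the element is not `0` (basis), so the norm is not `0`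
(`Algebra.norm_ne_zero_iff`). Root multiplicities at `g`: `q * mult d + N = m * q`, so `q ∣ N`. -/
theorem dvd_of_det {E : Type u} [Field E] {q : ℕ} [NeZero q] (x : E[X]) (g : E)
    (hx : Irreducible (X ^ q - C (x.eval g) : E[X])) (p : Fin q → E[X]) (d y : E[X]) (hd : d ≠ 0)
    (hy : y.rootMultiplicity g = 1) (N : ℕ) (h : d ^ q * y ^ N = (nmat q x p).det) : q ∣ N := by
  classical
  have hy0 : y ≠ 0 := by
    rintro rfl
    rw [rootMultiplicity_zero] at hy
    exact zero_ne_one hy
  have hdet : (nmat q x p).det ≠ 0 := by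
    rw [← h]
    exact mul_ne_zero (pow_ne_zero _ hd) (pow_ne_zero _ hy0)
  have hp : ∃ i, p i ≠ 0 := by
    by_contra hall
    push Not at hall
    refine hdet ?_
    have h0 : nmat q x p = 0 := by
      ext1 r s
      simp only [nmat, Matrix.of_apply, hall, mul_zero, Matrix.zero_apply]
    rw [h0]
    have : Nonempty (Fin q) := ⟨⟨0, Nat.pos_of_ne_zero (NeZero.ne q)⟩⟩
    exact Matrix.det_zero
  obtain ⟨m, p', hpp, i₀, hi₀⟩ := exists_common g p hp
  have hmat : nmat q x p = (X - C g) ^ m • nmat q x p' := by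
    ext1 r s
    simp only [nmat, Matrix.of_apply, Matrix.smul_apply, smul_eq_mul, hpp (r - s)]
    ring
  have hD : (nmat q x p).det = ((X - C g) ^ m) ^ q * (nmat q x p').det := by
    rw [hmat, Matrix.det_smul, Fintype.card_fin]
  -- the value of the second factor at `g` is not zero
  have hval : (nmat q x p').det.eval g ≠ 0 := by
    have h1 : (nmat q x p').det.eval g =
        (nmat q (x.eval g) (fun i => (p' i).eval g)).det :=
      nmat_map q (evalRingHom g) x p'
    rw [h1, ← norm_eq_det' (adjBasis q (x.eval g)) _ (x.eval g) (adjBasis_apply _)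
      (adj_root_pow _)]
    have : Fact (Irreducible (X ^ q - C (x.eval g) : E[X])) := ⟨hx⟩
    have : IsDomain (Adj q (x.eval g)) := inferInstanceAs
      (IsDomain (AdjoinRoot (X ^ q - C (x.eval g))))
    rw [Algebra.norm_ne_zero_iff]
    intro h2
    have h3 := Fintype.linearIndependent_iff.1 (adjBasis q (x.eval g)).linearIndependent
      (fun i => (p' i).eval g) h2 i₀
    exact hi₀ h3
  have hD0 : (nmat q x p').det ≠ 0 := by
    intro h0
    rw [h0, eval_zero] at hval
    exact hval rfl
  have hX0 : (X - C g : E[X]) ≠ 0 := X_sub_C_ne_zero g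
  have e1 := congrArg (rootMultiplicity g) h
  rw [rootMultiplicity_mul (mul_ne_zero (pow_ne_zero _ hd) (pow_ne_zero _ hy0)),
    rm_pow g d hd, rm_pow g y hy0, hy, mul_one, hD,
    rootMultiplicity_mul (mul_ne_zero (pow_ne_zero _ (pow_ne_zero _ hX0)) hD0),
    rm_pow g _ (pow_ne_zero _ hX0), rm_pow g _ hX0, rootMultiplicity_eq_zero hval, add_zero] at e1
  refine (Nat.dvd_add_right (dvd_mul_right q (rootMultiplicity g d))).1 ?_
  rw [e1]
  exact dvd_mul_right _ _

end Pool.Agent.NFF
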