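import Pool.Agent.NFF.NormTr
import Pool.Agent.NFF.Val
import Pool.Agent.NFF.Frac
import Pool.Agent.NFF.Defs

/-!
# The place `u = g` (package NFF-PatA)
-/

set_option autoImplicit false

namespace Pool.Agent.NFF

open Polynomial Pool.Agent.NIPFields
open scoped IntermediateField

universe u

/-- An element of `F[u]` with a simple root at a place where `X ^ q - x` stays irreducible is no
value of the norm form over `K`.

PROOF. Let `g' = AdjoinSimple.gen F u`. Suppose `aeval u Y ∈ NS q (aeval u x)` in `K`. Both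
elements are images of `aeval g' Y`, `aeval g' x` in `F⟮u⟯`, so by `pow_mem_NS_of_finite` (`K₀ =
F⟮u⟯`) `(aeval g' Y) ^ N ∈ NS q (aeval g' x)` with `N = [K : F⟮u⟯]`. `exists_polys` gives `d ^ q *
Y ^ N = det (nmat q x p)` in `F[X]`. Map to `E[X]` (`mapRingHom (algebraMap F E)`, `nmat_map`) and
use `dvd_of_det`: `q ∣ N`, against `hN`. -/
theorem notMem_NS {F K : Type u} [Field F] [Field K] [Algebra F K] (u : K)
    (hu : Transcendental F u) [FiniteDimensional F⟮u⟯ K] {q : ℕ} [NeZero q]
    (hN : ¬ q ∣ Module.finrank F⟮u⟯ K) (E : Type u) [Field E] [Algebra F E] (g : E) (x Y : F[X])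
    (hx : Irreducible (X ^ q - C (aeval g x) : E[X]))
    (hY : (Y.map (algebraMap F E)).rootMultiplicity g = 1) :
    aeval u Y ∉ NS q (aeval u x) := by
  intro h
  have hgen : algebraMap F⟮u⟯ K (IntermediateField.AdjoinSimple.gen F u) = u :=
    IntermediateField.AdjoinSimple.algebraMap_gen F u
  have hmap : ∀ P : F[X], algebraMap F⟮u⟯ K
      (aeval (IntermediateField.AdjoinSimple.gen F u) P) = aeval u P := by
    intro P
    rw [← aeval_algebraMap_apply, hgen]
  have h1 : algebraMap F⟮u⟯ K (aeval (IntermediateField.AdjoinSimple.gen F u) Y) ∈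
      NS q (algebraMap F⟮u⟯ K (aeval (IntermediateField.AdjoinSimple.gen F u) x)) := by
    rw [hmap, hmap]
    exact h
  have h2 := pow_mem_NS_of_finite _ _ h1
  obtain ⟨p, d, hd, hdet⟩ := exists_polys u hu x Y _ h2
  apply hN
  have h3 := congrArg (mapRingHom (algebraMap F E)) hdet
  rw [map_mul, map_pow, map_pow, nmat_map] at h3
  refine dvd_of_det (x.map (algebraMap F E)) g ?_ (fun i => mapRingHom (algebraMap F E) (p i))
    (d.map (algebraMap F E)) (Y.map (algebraMap F E)) ?_ hY _ h3
  · rw [eval_map_algebraMap]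
    exact hx
  · exact (Polynomial.map_ne_zero_iff (algebraMap F E).injective).2 hd

end Pool.Agent.NFF
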