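import Pool.Agent.NFF.WnProd
import Pool.Agent.NIPFields.LG.LargeTL

/-!
# A simple root of the iterated norm (package NFF-Root)
-/

set_option autoImplicit false

namespace Pool.Agent.NFF

open Polynomial Pool.Agent.NIPFields

universe u

variable {q : ℕ} [NeZero q]

/-- The polynomial `Y = Wn q m F[X] lam b X ∈ F[X]` has the simple root `∑ lam j * s j` for a
suitable choice of `lam`.

PROOF. Let `T ⊆ (Fin m → Ω)` be the finite set of the `fun j => ζ ^ e j * s j`, `e : Fin m → Fin
q`, and `lam` from `LG.exists_lam T` (`NIPFields/LG/LargeTL.lean`): `v ↦ ∑ lam j * v j` is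
injective on `T`. The `fun j => ζ ^ e j * s j` are different for different `e` (`s j ≠ 0` because
`b j ≠ 0`; `IsPrimitiveRoot.pow_inj`). By `Wn_map` for `mapRingHom (algebraMap F Ω)` and `Wn_prod`
over `Ω[X]` (with `C ζ`, `C (s j)`), `Y.map (algebraMap F Ω) = ∏ e, (X - C (∑ lam j * ζ ^ e j * s
j))`, and the root multiplicity at `∑ lam j * s j` (`e = 0`) is the number of the `e` with the
same sum, that is `1` (`Polynomial.count_roots`, `roots_prod_X_sub_C`, or `rootMultiplicity_mul`
and `rootMultiplicity_X_sub_C`). -/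
theorem exists_simple_root {F Ω : Type u} [Field F] [Infinite F] [Field Ω] [Algebra F Ω] {ζ : F}
    (hζ : IsPrimitiveRoot ζ q) {m : ℕ} (b : Fin m → F) (hb : ∀ j, b j ≠ 0) (s : Fin m → Ω)
    (hs : ∀ j, s j ^ q = algebraMap F Ω (b j)) :
    ∃ lam : Fin m → F, ((Wn q m F[X] (fun j => C (lam j)) (fun j => C (b j)) X).map
      (algebraMap F Ω)).rootMultiplicity (∑ j, algebraMap F Ω (lam j) * s j) = 1 := by
  classical
  have hq0 : q ≠ 0 := NeZero.ne q
  have hs0 : ∀ j, s j ≠ 0 := by
    intro j h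
    have h1 := hs j
    rw [h, zero_pow hq0] at h1
    exact hb j ((map_eq_zero (algebraMap F Ω)).1 h1.symm)
  have hζΩ : IsPrimitiveRoot (algebraMap F Ω ζ) q :=
    hζ.map_of_injective (algebraMap F Ω).injective
  obtain ⟨v, hv⟩ : ∃ v : (Fin m → Fin q) → (Fin m → Ω),
      v = fun e j => algebraMap F Ω ζ ^ (e j : ℕ) * s j := ⟨_, rfl⟩
  have hvinj : Function.Injective v := by
    intro e e' h
    funext j
    have h1 := congrFun h j
    simp only [hv] at h1
    exact Fin.ext (hζΩ.pow_inj (e j).2 (e' j).2 (mul_right_cancel₀ (hs0 j) h1))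
  obtain ⟨lam, hlam⟩ := LG.exists_lam (K := F) (Finset.univ.image v)
  obtain ⟨sm, hsm⟩ : ∃ sm : (Fin m → Fin q) → Ω,
      sm = fun e => ∑ j, algebraMap F Ω (lam j) * v e j := ⟨_, rfl⟩
  have hsminj : Function.Injective sm := by
    intro e e' h
    apply hvinj
    rw [hsm] at h
    exact hlam (Finset.mem_coe.2 (Finset.mem_image_of_mem v (Finset.mem_univ e)))
      (Finset.mem_coe.2 (Finset.mem_image_of_mem v (Finset.mem_univ e'))) h
  refine ⟨lam, ?_⟩
  have hprod : (Wn q m F[X] (fun j => C (lam j)) (fun j => C (b j)) X).map (algebraMap F Ω) =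
      ∏ a ∈ Finset.univ.image sm, (X - C a) := by
    have h1 := Wn_map (q := q) m (mapRingHom (algebraMap F Ω)) (fun j => C (lam j))
      (fun j => C (b j)) X
    rw [coe_mapRingHom] at h1
    simp only [map_C, map_X] at h1
    have hb' : ∀ j, (C (s j) : Polynomial Ω) ^ q = C (algebraMap F Ω (b j)) := by
      intro j
      rw [← C_pow, hs]
    rw [h1, Wn_prod (q := q) m (C (algebraMap F Ω ζ)) (hζΩ.map_of_injective C_injective)
      (fun j => C (algebraMap F Ω (lam j))) (fun j => C (algebraMap F Ω (b j)))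
      (fun j => C (s j)) X (fun j => C_ne_zero.2 (hs0 j)) hb',
      Finset.prod_image fun e _ e' _ h => hsminj h]
    refine Finset.prod_congr rfl fun e _ => ?_
    congr 1
    simp only [hsm, hv, map_sum, C_mul, C_pow]
  have h0 : ∑ j, algebraMap F Ω (lam j) * s j = sm 0 := by
    simp only [hsm, hv, Pi.zero_apply, Fin.val_zero, pow_zero, one_mul]
  rw [hprod, h0, ← count_roots, roots_prod_X_sub_C]
  exact Multiset.count_eq_one_of_mem (Finset.nodup _)
    (Finset.mem_image_of_mem sm (Finset.mem_univ 0))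

end Pool.Agent.NFF
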