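import Pool.Agent.NFF.Kum
import Pool.Agent.NFF.PatA
import Pool.Agent.NFF.Root

/-!
# The pattern for constant fields with infinitely many classes (package NFF-PatB)
-/

set_option autoImplicit false

namespace Pool.Agent.NFF

open Polynomial Pool.Agent.NIPFields
open scoped IntermediateField

universe u

/-- PROOF. `q = ℓ ^ a`. `n = 0`: `ShatE` is trivial. `n = m + 1`: let `Ω` be an algebraic closure
of `F`, `s i ∈ Ω` with `s i ^ q = x i`. For `j : Fin (m + 1)` let `b = fun k => x (j.succAbove k)`
and `lam` as in `exists_simple_root` (`ζ = ξ ^ 4`), `Y j = Wn q m F[X] (C ∘ lam) (C ∘ b) X`, `y j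
= aeval u (Y j) ∈ K`. Use `shatE_of_matrix` with `t i = algebraMap F K (x i)`. `y j ≠ 0`: `Y j ≠
0` (root multiplicity `1`) and `u` is transcendental. For `i ≠ j`, `i = j.succAbove k`
(`Fin.exists_succAbove_eq`) and `Wn_mem` with `NSR_map` (for `aeval u : F[X] → K`) give `y j ∈ NS
q (x i)`. `y j ∉ NS q (x j)`: `notMem_NS` with `E = adjoin F (s '' {i | i ≠ j})` (an intermediate
field of `Ω / F`), `g = ∑ lam k * s (j.succAbove k) ∈ E`, `x = C (x j)` (`aeval u (C c) =
algebraMap F K c`); irreducibility by `irr_of_not_pow` (`i = ξ ^ q`) and `not_pow_adjoin`; the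
root multiplicity over `E` is the one over `Ω` (`Polynomial.eq_rootMultiplicity_map` for the
injection `E → Ω`). -/
theorem shatE_of_ind {F K : Type u} [Field F] [CharZero F] [Field K] [Algebra F K] (u : K)
    (hu : Transcendental F u) [FiniteDimensional F⟮u⟯ K] {ℓ a n : ℕ} (hℓ : ℓ.Prime) (ha : 0 < a)
    {ξ : F} (hξ : IsPrimitiveRoot ξ (4 * ℓ ^ a)) (hN : ¬ ℓ ^ a ∣ Module.finrank F⟮u⟯ K)
    (x : Fin n → F) (hx : Ind ℓ x) : ShatE (ℓ ^ a) K n := by
  classical
  have hq : 0 < ℓ ^ a := pow_pos hℓ.pos _
  have : NeZero (ℓ ^ a) := ⟨hq.ne'⟩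
  have : Infinite F := Infinite.of_injective (Nat.cast : ℕ → F) Nat.cast_injective
  have hi4 : IsPrimitiveRoot (ξ ^ (ℓ ^ a)) 4 := hξ.pow (by positivity) (by ring)
  have hi : (ξ ^ ℓ ^ a) ^ 2 = -1 := by
    have h1 : ((ξ ^ ℓ ^ a) ^ 2) ^ 2 = 1 := by rw [← pow_mul]; exact hi4.pow_eq_one
    rcases sq_eq_one_iff.1 h1 with h | h
    · exact absurd h (hi4.pow_ne_one_of_pos_of_lt (by norm_num) (by norm_num))
    · exact h
  have hζ : IsPrimitiveRoot (ξ ^ 4) (ℓ ^ a) := hξ.pow (by positivity) rfl
  cases n with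
  | zero => exact ⟨fun i => i.elim0, fun _ => 0, fun i => i.elim0⟩
  | succ m =>
    have hs : ∀ i, ∃ s : AlgebraicClosure F, s ^ ℓ ^ a = algebraMap F (AlgebraicClosure F) (x i) :=
      fun i => IsAlgClosed.exists_pow_nat_eq _ hq
    choose s hs using hs
    have key : ∀ j : Fin (m + 1), ∃ lam : Fin m → F, ((Wn (ℓ ^ a) m F[X] (fun k => C (lam k))
        (fun k => C (x (j.succAbove k))) X).map
        (algebraMap F (AlgebraicClosure F))).rootMultiplicity
          (∑ k, algebraMap F (AlgebraicClosure F) (lam k) * s (j.succAbove k)) = 1 :=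
      fun j => exists_simple_root hζ (fun k => x (j.succAbove k)) (fun k => hx.1 _)
        (fun k => s (j.succAbove k)) (fun k => hs _)
    choose lam hlam using key
    have hY0 : ∀ j, Wn (ℓ ^ a) m F[X] (fun k => C (lam j k))
        (fun k => C (x (j.succAbove k))) X ≠ 0 := by
      intro j h
      have h1 := hlam j
      rw [h, Polynomial.map_zero, rootMultiplicity_zero] at h1
      exact absurd h1 (by norm_num)
    refine shatE_of_matrix (fun i => algebraMap F K (x i)) (fun j => aeval u
      (Wn (ℓ ^ a) m F[X] (fun k => C (lam j k)) (fun k => C (x (j.succAbove k))) X)) ?_ ?_ ?_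
    · intro j h
      exact hY0 j (transcendental_iff.1 hu _ h)
    · intro i k hk
      obtain ⟨l, hl⟩ := Fin.exists_succAbove_eq hk.symm
      have h1 := Wn_mem (q := ℓ ^ a) m (R := F[X]) (fun k' => C (lam k k'))
        (fun k' => C (x (k.succAbove k'))) X l
      have h2 := NSR_map (aeval u : F[X] →ₐ[F] K).toRingHom h1
      have h3 : (aeval u : F[X] →ₐ[F] K).toRingHom (C (x (k.succAbove l))) =
          algebraMap F K (x i) := by
        rw [hl]
        exact aeval_C u (x i)
      rw [← NSR_eq_NS]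
      rw [h3] at h2
      exact h2
    · intro j
      have hg : ∑ k, algebraMap F (AlgebraicClosure F) (lam j k) * s (j.succAbove k) ∈
          IntermediateField.adjoin F (s '' {i | i ≠ j}) := by
        refine sum_mem fun k _ => mul_mem (IntermediateField.algebraMap_mem _ _) ?_
        exact IntermediateField.subset_adjoin _ _ ⟨_, Fin.succAbove_ne j k, rfl⟩
      have h1 := notMem_NS u hu hN (IntermediateField.adjoin F (s '' {i | i ≠ j})) ⟨_, hg⟩
        (C (x j)) (Wn (ℓ ^ a) m F[X] (fun k => C (lam j k)) (fun k => C (x (j.succAbove k))) X)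
        ?_ ?_
      · rwa [aeval_C] at h1
      · rw [aeval_C]
        refine irr_of_not_pow hℓ ⟨algebraMap F _ (ξ ^ ℓ ^ a), ?_⟩ ?_ a
        · rw [← map_pow, hi, map_neg, map_one]
        · intro w hw
          refine not_pow_adjoin hℓ ha hξ x hx s hs j w w.2 ?_
          have h2 := congrArg (algebraMap (IntermediateField.adjoin F (s '' {i | i ≠ j}))
            (AlgebraicClosure F)) hw
          rw [map_pow, ← IsScalarTower.algebraMap_apply] at h2
          exact h2
      · have hinj : Function.Injective (algebraMap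
            (IntermediateField.adjoin F (s '' {i | i ≠ j})) (AlgebraicClosure F)) :=
          Subtype.val_injective
        rw [eq_rootMultiplicity_map hinj, Polynomial.map_map, ← IsScalarTower.algebraMap_eq]
        exact hlam j

end Pool.Agent.NFF
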