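import Pool.Agent.NFF.PatA
import Pool.Agent.NFF.Irr

/-!
# The pattern for constant fields with small powers (package NFF-PatC)
-/

set_option autoImplicit false

namespace Pool.Agent.NFF

open Polynomial Pool.Agent.NIPFields Pool.Agent.NIPFields.NA
open scoped IntermediateField
open Pool.Agent.NIPFields.LG (Pw Pw_one Pw_ne Pw_mul Pw_inv)

universe u

/-- The norm of `s - θ`. -/
private theorem pow_sub_mem_NS_patC {K : Type u} [Field K] {q : ℕ} [NeZero q] (s b : K) :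
    s ^ q - b ∈ NS q b := by
  rw [← NSR_eq_NS, mem_NSR_iff_adj]
  have hmon : (X ^ q - C b).Monic := monic_X_pow_sub_C b (NeZero.ne q)
  refine ⟨algebraMap K (Adj q b) s - AdjoinRoot.root (X ^ q - C b), ?_⟩
  let pb := AdjoinRoot.powerBasis hmon.ne_zero
  have h1 : minpoly K pb.gen = X ^ q - C b := by
    have h2 := AdjoinRoot.minpoly_root hmon.ne_zero
    rw [hmon.leadingCoeff, inv_one, C_1, mul_one] at h2
    exact h2
  rw [Algebra.norm_eq_matrix_det pb.basis]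
  have h3 : Algebra.leftMulMatrix pb.basis (algebraMap K (Adj q b) s -
      AdjoinRoot.root (X ^ q - C b)) = Matrix.scalar _ s -
        Algebra.leftMulMatrix pb.basis pb.gen := by
    rw [map_sub, AlgHom.commutes]
    rfl
  rw [h3, ← Matrix.eval_charpoly, charpoly_leftMulMatrix, h1]
  simp

/-- PROOF. `q = ℓ ^ a`; `-1 = (ξ ^ 2) ^ q ∈ Pw F q` (`(ξ ^ 2) ^ q = ξ ^ (2 q)` is a square root of
`1` different from `1`). By `exists_b` and `exists_c` (`NIPFields/NA/Conf.lean`, with `ℓ` there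
our `q`) there are `b i`, `c j`, `r j ∈ F` with `r j ≠ 0`, `c j - b j = α * r j ^ q` and `c j - b
i ∈ Pw F q` for `i ≠ j`. Use `shatE_of_matrix` with `t i = u + c i`, `y k = u + b k` (images in
`K`; `y k ≠ 0` because `u` is transcendental). For `k ≠ i`, `c i - b k = s ^ q`, and
`pow_sub_mem_NS` (`NA/Sym.lean`) gives `s ^ q - (u + c i) = -(u + b k) ∈ NS q (u + c i)`; multiply
by `-1 ∈ NS q _` (`pow_mem_NS`). For `k = i`: `notMem_NS` with `E = F`, `g = -b i`, `x = X + C (c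
i)`, `Y = X + C (b i)`: `aeval g x = c i - b i = α * r i ^ q` is no `ℓ`-th power, so
`irr_of_not_pow` applies (`i = ξ ^ q`), and `X + C (b i)` has the simple root `-b i`. -/
theorem shatE_of_sml {F K : Type u} [Field F] [CharZero F] [Field K] [Algebra F K] (u : K)
    (hu : Transcendental F u) [FiniteDimensional F⟮u⟯ K] {ℓ a : ℕ} (hℓ : ℓ.Prime)
    {ξ α : F} (hξ : IsPrimitiveRoot ξ (4 * ℓ ^ a)) (hα : ∀ w : F, w ^ ℓ ≠ α)
    (hS : Sml F (ℓ ^ a)) (hN : ¬ ℓ ^ a ∣ Module.finrank F⟮u⟯ K) (n : ℕ) : ShatE (ℓ ^ a) K n := by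
  classical
  have hq0 : ℓ ^ a ≠ 0 := pow_ne_zero _ hℓ.ne_zero
  have hNZ : NeZero (ℓ ^ a) := ⟨hq0⟩
  have ha : a ≠ 0 := by
    rintro rfl
    exact hN (by rw [pow_zero]; exact one_dvd _)
  have hsq : ξ ^ (2 * ℓ ^ a) = -1 := by
    have h1 : ξ ^ (2 * ℓ ^ a) ≠ 1 := hξ.pow_ne_one_of_pos_of_lt (by omega) (by omega)
    have h2 : ξ ^ (2 * ℓ ^ a) * ξ ^ (2 * ℓ ^ a) = 1 := by
      rw [← pow_add, ← hξ.pow_eq_one]
      congr 1
      ring
    rcases mul_self_eq_one_iff.1 h2 with h | h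
    · exact absurd h h1
    · exact h
  have hneg : (ξ ^ 2) ^ (ℓ ^ a) = -1 := by rw [← pow_mul, hsq]
  have hξ0 : ξ ≠ 0 := hξ.ne_zero (by omega)
  have hm : (-1 : F) ∈ Pw F (ℓ ^ a) := ⟨ξ ^ 2, pow_ne_zero _ hξ0, hneg.symm⟩
  have hi : ∃ i : F, i ^ 2 = -1 := ⟨ξ ^ (ℓ ^ a), by rw [← pow_mul, mul_comm, hsq]⟩
  obtain ⟨b, -, hb⟩ := exists_b hm hS n
  obtain ⟨c, r, h3, h4⟩ := exists_c hS hb α
  refine shatE_of_matrix (fun i => u + algebraMap F K (c i)) (fun k => u + algebraMap F K (b k))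
    (fun k h0 => ?_) (fun i k hki => ?_) (fun i => ?_)
  · have h5 : u = algebraMap F K (-b k) := by
      rw [map_neg]
      exact eq_neg_of_add_eq_zero_left h0
    apply hu
    rw [h5]
    exact isAlgebraic_algebraMap _
  · obtain ⟨s, -, hs⟩ := h4 k i hki
    have h5 : (-1 : K) ∈ NS (ℓ ^ a) (u + algebraMap F K (c i)) := by
      have h6 := pow_mem_NS (ℓ := ℓ ^ a) (u + algebraMap F K (c i)) (algebraMap F K (ξ ^ 2))
      rwa [← map_pow, hneg, map_neg, map_one] at h6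
    have h6 := NS_mul' h5 (pow_sub_mem_NS_patC (q := ℓ ^ a) (algebraMap F K s)
      (u + algebraMap F K (c i)))
    have h7 : (-1 : K) * (algebraMap F K s ^ ℓ ^ a - (u + algebraMap F K (c i))) =
        u + algebraMap F K (b k) := by
      rw [← map_pow, ← hs, map_sub]
      ring
    rwa [h7] at h6
  · have hx0 : aeval (-b i) (X + C (c i) : F[X]) = α * r i ^ ℓ ^ a := by
      rw [map_add, aeval_X, aeval_C, ← (h3 i).2, Algebra.algebraMap_self, RingHom.id_apply]
      ring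
    have hα' : ∀ w : F, w ^ ℓ ≠ α * r i ^ ℓ ^ a := by
      intro w hw
      obtain ⟨a', rfl⟩ : ∃ a', a = a' + 1 := ⟨a - 1, by omega⟩
      have hρ : r i ^ ℓ ^ (a' + 1) = (r i ^ ℓ ^ a') ^ ℓ := by rw [← pow_mul, pow_succ]
      have hρ0 : r i ^ ℓ ^ a' ≠ 0 := pow_ne_zero _ (h3 i).1
      apply hα (w / r i ^ ℓ ^ a')
      rw [div_pow, hw, hρ]
      exact mul_div_cancel_right₀ _ (pow_ne_zero _ hρ0)
    have hirr : Irreducible (X ^ ℓ ^ a - C (aeval (-b i) (X + C (c i) : F[X])) : F[X]) := by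
      rw [hx0]
      exact irr_of_not_pow hℓ hi hα' a
    have hroot : ((X + C (b i) : F[X]).map (algebraMap F F)).rootMultiplicity (-b i) = 1 := by
      have h5 : (X + C (b i) : F[X]).map (algebraMap F F) = X - C (-b i) := by
        rw [Algebra.algebraMap_self, Polynomial.map_id, C_neg, sub_neg_eq_add]
      rw [h5]
      exact rootMultiplicity_X_sub_C_self
    have h6 := notMem_NS u hu hN F (-b i) (X + C (c i)) (X + C (b i)) hirr hroot
    rwa [map_add, map_add, aeval_X, aeval_C, aeval_C] at h6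

end Pool.Agent.NFF
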