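import Pool.Agent.NIPFields.NA.Main
import Pool.Agent.NIPFields.LG.FTRel

/-!
# Large fields have small powers (package NFF-Sml)
-/

set_option autoImplicit false

namespace Pool.Agent.NFF

open Polynomial Pool.Agent.NIPFields Pool.Agent.NIPFields.LG Pool.Agent.NIPFields.NA
open Pool.Agent.NIPFields.FI

private theorem evalEval_map_expand {K : Type*} [Field K] (q : ℕ) (G : K[X][X]) (t W : K) :
    (G.map (expand K q : K[X] →+* K[X])).evalEval t W = G.evalEval (t ^ q) W := by
  rw [← map_evalRingHom_eval, ← map_evalRingHom_eval, map_map]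
  congr 2
  ext a
  · simp
  · simp

/-- Finite extensions of large fields have small `q`-th powers.

PROOF. Copy the proof of `TLR_of_large` (`NIPFields/LG/FTRel.lean`) for `L / K` with the following
change. There the largeness of `K` is applied to a polynomial `G ∈ K[X][X]` and the smooth point
`(0, W₀)` and gives infinitely many points `(d, W)`, thus a point with `d` outside a finite set
`Bad` which contains `0`; then `1 + a d ∈ Pw L q` for all `a ∈ A`. Apply the largeness instead to
`G' = G.map (expand K q : K[X] →+* K[X])` (`G'(X, W) = G(X ^ q, W)`): `G'.evalEval t W =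
G.evalEval (t ^ q) W`, the same for the derivative with respect to `W`, and the smooth point is
again `(0, W₀)`. We get infinitely many `(t, W)`, only finitely many of which have `t ^ q ∈ Bad`
(`G` is monic in `W`, and `t ^ q = d` has finitely many solutions). So `d = t ^ q` with `t ≠ 0`,
and the rest of the proof is unchanged. -/
theorem sml_of_large {K : Type*} [Field K] [Infinite K] (h : Large K) {L : Type*} [Field L]
    [Algebra K L] [FiniteDimensional K L] [Algebra.IsSeparable K L] {q : ℕ} (hq : (q : K) ≠ 0) :
    Sml L q := by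
  classical
  intro A
  have hq0 : q ≠ 0 := by rintro rfl; simp at hq
  have hNZ : NeZero q := ⟨hq0⟩
  have hqL : (q : L) ≠ 0 := by
    have := (map_ne_zero (algebraMap K L)).2 hq
    rwa [map_natCast] at this
  rcases Nat.lt_or_ge 1 q with h1q | h1q
  swap
  · -- `q = 1`
    have hq1 : q = 1 := by omega
    subst hq1
    obtain ⟨t, ht⟩ := Infinite.exists_notMem_finset (insert 0 ((A.image fun a => -a⁻¹).preimage
      (algebraMap K L) (algebraMap K L).injective.injOn))
    rw [Finset.mem_insert, not_or] at ht
    refine ⟨algebraMap K L t, (_root_.map_ne_zero _).2 ht.1, fun a ha =>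
      ⟨1 + a * algebraMap K L t, ?_, by rw [pow_one, pow_one]⟩⟩
    intro h0
    apply ht.2
    rw [Finset.mem_preimage, Finset.mem_image]
    refine ⟨a, ha, ?_⟩
    have ha0 : a ≠ 0 := by
      rintro rfl
      simp at h0
    field_simp
    linear_combination -h0
  let Om := AlgebraicClosure K
  have hqO : (q : Om) ≠ 0 := by
    have := (map_ne_zero (algebraMap K Om)).2 hq
    rwa [map_natCast] at this
  let Em := L →ₐ[K] Om
  let ι := A × Em
  obtain ⟨lam, hlam⟩ := exists_lamR (K := K) (L := L) (Om := Om) (ι := A)
    (ltB q (fun _ : ι => (1 : Om)))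
  let lam' : ι → Om := fun i => i.2 (lam i.1)
  let a' : ι → Om := fun i => i.2 (i.1 : L)
  -- the curve over `Om`
  let G' : Om[X][X] := ltG q lam' a'
  have hG'mon : G'.Monic := ltG_monic _ _
  -- Galois invariance
  have hinv : ∀ σ : Om ≃ₐ[K] Om, G'.map (mapRingHom (σ : Om →+* Om)) = G' := by
    intro σ
    let π : ι ≃ ι :=
      { toFun := fun i => (i.1, (σ : Om →ₐ[K] Om).comp i.2)
        invFun := fun i => (i.1, (σ.symm : Om →ₐ[K] Om).comp i.2)
        left_inv := fun i => by
          refine Prod.ext rfl ?_
          ext x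
          simp
        right_inv := fun i => by
          refine Prod.ext rfl ?_
          ext x
          simp }
    have h1 : G'.map (mapRingHom (σ : Om →+* Om)) =
        ltG q (fun i : ι => lam' (π i)) (fun i : ι => a' (π i)) := ltG_map _ _ _
    rw [h1]
    exact ltG_comp lam' a' π
  -- separability of the coefficients
  have hsepτ : ∀ (τ : Em) (x : L), IsSeparable K (τ x) := fun τ x =>
    (Algebra.IsSeparable.isSeparable K x).map τ τ.injective
  have hsep : ∀ i j, IsSeparable K ((G'.coeff i).coeff j) := fun i j =>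
    ltG_separable (fun i => hsepτ _ _) (fun i => hsepτ _ _) i j
  -- descent
  obtain ⟨G, hG⟩ : ∃ G : K[X][X], G.map (mapRingHom (algebraMap K Om)) = G' := by
    have h1 : G' ∈ lifts (mapRingHom (algebraMap K Om)) := by
      rw [lifts_iff_coeff_lifts]
      intro i
      have h2 : G'.coeff i ∈ lifts (algebraMap K Om) := by
        rw [lifts_iff_coeff_lifts]
        intro j
        refine mem_range_of_fixed' (hsep i j) fun σ => ?_
        have h3 := congrArg (fun P : Om[X][X] => (P.coeff i).coeff j) (hinv σ)
        simpa [coeff_map] using h3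
      exact h2
    exact h1
  have hGmon : G.Monic := by
    refine monic_of_injective (f := mapRingHom (algebraMap K Om))
      (map_injective _ (algebraMap K Om).injective) ?_
    rw [hG]
    exact hG'mon
  have hGO : ∀ d : K, (G.map (evalRingHom d)).map (algebraMap K Om) =
      (ltM q lam' (fun i : ι => 1 + a' i * algebraMap K Om d)).charpoly := by
    intro d
    have h1 : (G.map (evalRingHom d)).map (algebraMap K Om) =
        G'.map (eval₂RingHom (RingHom.id Om) (algebraMap K Om d)) := by
      rw [← hG, map_map, map_map]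
      congr 1
      ext x
      · simp
      · simp
    rw [h1, ltG_eval]
    rfl
  -- separability at `0`
  have hs0 : (G.map (evalRingHom 0)).Separable := by
    rw [← separable_map (algebraMap K Om), hGO]
    simp only [map_zero, mul_zero, add_zero]
    exact (ltM_roots hqO (fun _ => one_ne_zero) hlam).1
  -- the resultant
  let D : K[X] := G.resultant G.derivative G.natDegree G.derivative.natDegree
  have hD0 : D.eval 0 ≠ 0 := by
    have e1 : D.eval 0 = (G.map (evalRingHom 0)).resultant (G.derivative.map (evalRingHom 0))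
        G.natDegree G.derivative.natDegree := by
      rw [resultant_map_map]
      rfl
    have hdeg : G.natDegree = (G.map (evalRingHom 0)).natDegree := (hGmon.natDegree_map _).symm
    obtain ⟨k, hk⟩ := Nat.exists_eq_add_of_le
      (natDegree_map_le (f := evalRingHom (0 : K)) (p := G.derivative))
    rw [e1, hk, resultant_add_right_deg _ _ _ _ _ le_rfl]
    have hc : (G.map (evalRingHom 0)).coeff G.natDegree = 1 := by
      rw [hdeg]
      exact (hGmon.map _).coeff_natDegree
    rw [hc, one_pow, one_mul, hdeg]
    apply resultant_ne_zero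
    rw [← derivative_map]
    exact hs0
  have hDne : D ≠ 0 := by
    intro h0
    rw [h0] at hD0
    simp at hD0
  have hGdeg : G.natDegree = q ^ Fintype.card ι := by
    have h1 : G'.natDegree = q ^ Fintype.card ι := ltG_natDegree _ _
    rw [← h1, ← hG, natDegree_map_eq_of_injective]
    exact map_injective _ (algebraMap K Om).injective
  have hsd : ∀ d : K, D.eval d ≠ 0 → (G.map (evalRingHom d)).Separable := by
    intro d hd
    have hG0 : G.natDegree ≠ 0 := by
      rw [hGdeg]
      exact pow_ne_zero _ hq0
    obtain ⟨P, Q, -, -, hPQ⟩ := exists_mul_add_mul_eq_C_resultant G G.derivative le_rfl le_rfl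
      (Or.inl hG0)
    have h2 := congrArg (Polynomial.map (evalRingHom d)) hPQ
    rw [Polynomial.map_add, Polynomial.map_mul, Polynomial.map_mul, map_C] at h2
    rw [separable_def, derivative_map]
    have hu : (evalRingHom d) D ≠ 0 := hd
    refine ⟨C ((evalRingHom d) D)⁻¹ * P.map (evalRingHom d),
      C ((evalRingHom d) D)⁻¹ * Q.map (evalRingHom d), ?_⟩
    have h3 : C ((evalRingHom d) D)⁻¹ * (G.map (evalRingHom d) * P.map (evalRingHom d) +
        G.derivative.map (evalRingHom d) * Q.map (evalRingHom d)) = 1 := by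
      rw [h2, ← C_mul, inv_mul_cancel₀ hu, C_1]
    rw [← h3]
    ring
  -- the smooth point
  let W₀ : K := ∑ a : A, Algebra.trace K L (lam a)
  have hW₀ : algebraMap K Om W₀ = ∑ i : ι, lam' i * 1 := by
    rw [Fintype.sum_prod_type, map_sum]
    refine Finset.sum_congr rfl fun a _ => ?_
    rw [trace_eq_sum_embeddings Om]
    refine Finset.sum_congr rfl fun τ _ => ?_
    rw [mul_one]
  have hroot0 : (G.map (evalRingHom 0)).eval W₀ = 0 := by
    apply (algebraMap K Om).injective
    rw [map_zero]
    have h1 : ((G.map (evalRingHom 0)).map (algebraMap K Om)).IsRoot (algebraMap K Om W₀) := by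
      rw [hGO, hW₀]
      exact ltM_root (q := q) (b := fun _ => (1 : Om)) (fun i => by simp)
    rw [IsRoot, eval_map_algebraMap, aeval_algebraMap_apply, coe_aeval_eq_eval] at h1
    exact h1
  have hinf := h (G.map (expand K q : K[X] →+* K[X])) ⟨0, W₀, by
    rw [evalEval_map_expand, zero_pow hq0, ← map_evalRingHom_eval]
    exact hroot0, by
    rw [derivative_map, evalEval_map_expand, zero_pow hq0, ← map_evalRingHom_eval,
      ← derivative_map]
    have h2 := hs0.eval₂_derivative_ne_zero (RingHom.id K) (x := W₀)
      (by rw [eval₂_id]; exact hroot0)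
    rwa [eval₂_id] at h2⟩
  -- bad values of `d`
  let Bad : Finset K := insert 0 (D.roots.toFinset ∪ (Finset.univ.image
    fun a : A => -(a : L)⁻¹).preimage (algebraMap K L) (algebraMap K L).injective.injOn)
  have hfin : {v : K × K | (G.map (expand K q : K[X] →+* K[X])).evalEval v.1 v.2 = 0 ∧
      v.1 ^ q ∈ Bad}.Finite := by
    refine Set.Finite.subset (Finset.finite_toSet (Bad.biUnion fun d =>
      (nthRoots q d).toFinset ×ˢ (G.map (evalRingHom d)).roots.toFinset)) ?_
    rintro ⟨t, y⟩ ⟨h1, h2⟩
    simp only [evalEval_map_expand] at h1 h2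
    rw [Finset.mem_coe, Finset.mem_biUnion]
    refine ⟨t ^ q, h2, Finset.mem_product.2 ⟨?_, ?_⟩⟩
    · rw [Multiset.mem_toFinset, mem_nthRoots (Nat.pos_of_ne_zero hq0)]
    · rw [Multiset.mem_toFinset, mem_roots (hGmon.map _).ne_zero, IsRoot, map_evalRingHom_eval]
      exact h1
  obtain ⟨⟨t, W⟩, hv1, hv2⟩ := (hinf.sdiff hfin).nonempty
  simp only [Set.mem_ofPred_eq, not_and] at hv1 hv2
  have hdB := hv2 hv1
  rw [evalEval_map_expand] at hv1
  obtain ⟨d, hdt⟩ : ∃ d : K, d = t ^ q := ⟨_, rfl⟩
  rw [← hdt] at hdB hv1
  simp only [Bad, Finset.mem_insert, Finset.mem_union, not_or, Multiset.mem_toFinset,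
    Finset.mem_preimage, Finset.mem_image, Finset.mem_univ, true_and, not_exists] at hdB
  obtain ⟨hd0, hdD, hda⟩ := hdB
  have hDd : D.eval d ≠ 0 := by
    intro h0
    exact hdD ((mem_roots hDne).2 h0)
  have hne : ∀ a : A, 1 + (a : L) * algebraMap K L d ≠ 0 := by
    intro a h0
    apply hda a
    have ha0 : (a : L) ≠ 0 := by
      intro ha
      rw [ha] at h0
      simp at h0
    field_simp
    linear_combination -h0
  have hcomm : ∀ i : ι, 1 + a' i * algebraMap K Om d =
      i.2 (1 + (i.1 : L) * algebraMap K L d) := by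
    intro i
    rw [map_add, map_one, map_mul, AlgHom.commutes]
  have hneO : ∀ i : ι, 1 + a' i * algebraMap K Om d ≠ 0 := by
    intro i
    rw [hcomm]
    exact (_root_.map_ne_zero _).2 (hne i.1)
  have hsO := (separable_map (algebraMap K Om)).2 (hsd d hDd)
  rw [hGO] at hsO
  have hinjd := ltM_inj h1q hsO
  have hW : (ltM q lam' (fun i : ι => 1 + a' i * algebraMap K Om d)).charpoly.IsRoot
      (algebraMap K Om W) := by
    rw [← hGO, IsRoot, eval_map_algebraMap, aeval_algebraMap_apply]
    rw [← map_evalRingHom_eval] at hv1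
    rw [coe_aeval_eq_eval, hv1, map_zero]
  obtain ⟨b, hb, hbW⟩ := (ltM_roots hqO hneO hinjd).2 _ hW
  have hfix : ∀ (σ : Om ≃ₐ[K] Om) (i : ι), σ (b i) = b (i.1, (σ : Om →ₐ[K] Om).comp i.2) := by
    intro σ
    let π : ι ≃ ι :=
      { toFun := fun i => (i.1, (σ : Om →ₐ[K] Om).comp i.2)
        invFun := fun i => (i.1, (σ.symm : Om →ₐ[K] Om).comp i.2)
        left_inv := fun i => by
          refine Prod.ext rfl ?_
          ext x
          simp
        right_inv := fun i => by
          refine Prod.ext rfl ?_
          ext x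
          simp }
    have hlamσ : ∀ i, σ (lam' i) = lam' (π i) := fun i => rfl
    have haσ : ∀ i, σ (a' i) = a' (π i) := fun i => rfl
    have h1 : (fun i => σ (b (π.symm i))) = b := by
      apply hinjd
      · rw [Finset.mem_coe, mem_ltB hq0]
        intro i
        rw [← map_pow, hb, map_add, map_one, map_mul, haσ, Equiv.apply_symm_apply, σ.commutes]
      · rw [Finset.mem_coe, mem_ltB hq0]
        exact hb
      · simp only
        rw [hbW]
        have h2 := congrArg σ hbW
        rw [σ.commutes, map_sum] at h2
        rw [← h2]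
        refine (Fintype.sum_equiv π _ _ fun i => ?_).symm
        rw [map_mul, hlamσ, Equiv.symm_apply_apply]
    intro i
    have h2 := congrFun h1 (π i)
    simp only [Equiv.symm_apply_apply] at h2
    exact h2
  -- an embedding
  let τ₀ : Em := IsAlgClosed.lift
  have ht0 : t ≠ 0 := by
    rintro rfl
    exact hd0 (by rw [hdt, zero_pow hq0])
  refine ⟨algebraMap K L t, (_root_.map_ne_zero _).2 ht0, fun a ha => ?_⟩
  rw [← map_pow, ← hdt]
  let _ : Algebra L Om := (τ₀ : L →+* Om).toAlgebra
  have htower : IsScalarTower K L Om := IsScalarTower.of_algebraMap_eq fun x =>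
    (τ₀.commutes x).symm
  have halgL : ∀ x : L, algebraMap L Om x = τ₀ x := fun _ => rfl
  have hnorm : Normal L Om := Normal.tower_top_of_normal K L Om
  obtain ⟨y, hy⟩ := mem_range_of_fixed (K := L) (Om := Om) (x := b (⟨a, ha⟩, τ₀)) hqL
    (hne ⟨a, ha⟩) (by rw [hb, hcomm]; rfl) (fun σ => by
      have h1 := hfix (σ.restrictScalars K) (⟨a, ha⟩, τ₀)
      have h2 : ((σ.restrictScalars K : Om ≃ₐ[K] Om) : Om →ₐ[K] Om).comp τ₀ = τ₀ := by
        ext x
        exact σ.commutes x
      simp only at h1
      rw [h2] at h1
      exact h1)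
  have hyq : y ^ q = 1 + a * algebraMap K L d := by
    apply (algebraMap L Om).injective
    rw [map_pow, hy, hb, hcomm]
    rfl
  refine ⟨y, ?_, hyq.symm⟩
  rintro rfl
  rw [zero_pow hq0] at hyq
  exact hne ⟨a, ha⟩ hyq.symm

end Pool.Agent.NFF
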