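import Pool.Agent.NFF.Wn

/-!
# The norm form splits (package NFF-Split)
-/

set_option autoImplicit false

namespace Pool.Agent.NFF

open Polynomial Pool.Agent.NIPFields

universe u

variable {q : ℕ} [NeZero q]

/-- The evaluation `root ↦ r`, for a root `r` of `X ^ q - b`. -/
noncomputable def evr {R : Type u} [CommRing R] (b r : R) (hr : r ^ q = b) : Adj q b →+* R :=
  AdjoinRoot.lift (RingHom.id R) r (by
    rw [eval₂_sub, eval₂_pow, eval₂_X, eval₂_C, hr, RingHom.id_apply, sub_self])

/-- PROOF. `AdjoinRoot.lift_of`. -/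
theorem evr_algebraMap {R : Type u} [CommRing R] (b r : R) (hr : r ^ q = b) (c : R) :
    evr b r hr (algebraMap R (Adj q b) c) = c :=
  AdjoinRoot.lift_of _

theorem evr_root {R : Type u} [CommRing R] (b r : R) (hr : r ^ q = b) :
    evr b r hr (AdjoinRoot.root (X ^ q - C b)) = r :=
  AdjoinRoot.lift_root _

/-- If `s ^ q = b` and there is a primitive `q`-th root of unity `ζ`, the norm from `R[T] / (T ^ q
- b)` is the product of the evaluations at `ζ ^ i * s`.

PROOF. Let `r i = ζ ^ i * s` (`i : Fin q`); they are different (`s ≠ 0`,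
`IsPrimitiveRoot.pow_inj`). `w = ∑ k, z k • adjBasis k`, so `norm w = det M`, `M = nmat q b z`
(`norm_eq_det'`; see `norm_adjMap` in `NIPFields/Phi.lean`). Let `V = Matrix.vandermonde r`, `V i
k = r i ^ k`. Then `V * M = diagonal (evr w) * V`: the entry `(i, k)` of `V * M` is `∑ j, r i ^ j
* M j k`, which is the image under `evr (r i)` of `∑ j, M j k • adjBasis j = w * root ^ k` (this
is `h1` in the proof of `norm_eq_det'`; or check it directly from the definition of `nmat` as
there), that is `evr (r i) w * r i ^ k`. `det V ≠ 0` (`Matrix.det_vandermonde_ne_zero_iff`), so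
`det M = ∏ i, evr (r i) w` (`R` is a domain). -/
theorem norm_split {R : Type u} [CommRing R] [IsDomain R] (b s ζ : R)
    (hζ : IsPrimitiveRoot ζ q) (hs0 : s ≠ 0) (hs : ∀ i : Fin q, (ζ ^ (i : ℕ) * s) ^ q = b)
    (w : Adj q b) :
    Algebra.norm R w = ∏ i : Fin q, evr b (ζ ^ (i : ℕ) * s) (hs i) w := by
  have hinj : Function.Injective fun i : Fin q => ζ ^ (i : ℕ) * s := by
    intro i j h
    exact Fin.ext (hζ.pow_inj i.2 j.2 (mul_right_cancel₀ hs0 h))
  have hdet : (Matrix.vandermonde fun i : Fin q => ζ ^ (i : ℕ) * s).det ≠ 0 :=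
    Matrix.det_vandermonde_ne_zero_iff.2 hinj
  have hsum : ∀ k : Fin q, ∑ j, Algebra.leftMulMatrix (adjBasis q b) w j k • adjBasis q b j =
      w * adjBasis q b k := by
    intro k
    simp only [Algebra.leftMulMatrix_eq_repr_mul]
    exact (adjBasis q b).sum_repr _
  have key : Matrix.vandermonde (fun i : Fin q => ζ ^ (i : ℕ) * s) *
        Algebra.leftMulMatrix (adjBasis q b) w =
      Matrix.diagonal (fun i : Fin q => evr b (ζ ^ (i : ℕ) * s) (hs i) w) *
        Matrix.vandermonde (fun i : Fin q => ζ ^ (i : ℕ) * s) := by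
    ext i k
    rw [Matrix.mul_apply, Matrix.diagonal_mul, Matrix.vandermonde_apply]
    have h2 := congrArg (evr b (ζ ^ (i : ℕ) * s) (hs i)) (hsum k)
    rw [map_sum, map_mul, adjBasis_apply, map_pow, evr_root] at h2
    rw [← h2]
    refine Finset.sum_congr rfl fun j _ => ?_
    rw [Algebra.smul_def, map_mul, evr_algebraMap, adjBasis_apply, map_pow, evr_root,
      Matrix.vandermonde_apply, mul_comm]
  have h3 := congrArg Matrix.det key
  rw [Matrix.det_mul, Matrix.det_mul, Matrix.det_diagonal, mul_comm] at h3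
  rw [Algebra.norm_eq_matrix_det (adjBasis q b)]
  exact mul_right_cancel₀ hdet h3

end Pool.Agent.NFF
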