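import Pool.Agent.NIPFields.Phi

/-!
# Iterated norms (package NFF-Wn)

`Wn q m R lam b u` is the norm of `u - ∑ j, lam j * γ j` from `R[γ₁, …, γₘ]`, `γⱼ ^ q = b j`.
-/

set_option autoImplicit false

namespace Pool.Agent.NFF

open Polynomial Pool.Agent.NIPFields

universe u

/-- The iterated norm of `u - ∑ j, lam j * γ j`. -/
noncomputable def Wn (q : ℕ) :
    (m : ℕ) → (R : Type u) → [CommRing R] → (Fin m → R) → (Fin m → R) → R → R
  | 0, _, _, _, _, u => u
  | (m + 1), R, _, lam, b, u => Algebra.norm R (Wn q m (Adj q (b (Fin.last m)))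
      (fun j => algebraMap R _ (lam j.castSucc)) (fun j => algebraMap R _ (b j.castSucc))
      (algebraMap R _ u - algebraMap R _ (lam (Fin.last m)) *
        AdjoinRoot.root (X ^ q - C (b (Fin.last m)))))

variable {q : ℕ} [NeZero q]

/-- PROOF: as `Phi_map` in `NIPFields/Phi.lean` (`norm_adjMap`, `adjMap_algebraMap`,
`adjMap_root`). -/
theorem Wn_map (m : ℕ) {R S : Type u} [CommRing R] [CommRing S] [Nontrivial R] [Nontrivial S]
    (φ : R →+* S) (lam b : Fin m → R) (u : R) :
    φ (Wn q m R lam b u) = Wn q m S (fun j => φ (lam j)) (fun j => φ (b j)) (φ u) := by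
  induction m generalizing R S with
  | zero => simp [Wn]
  | succ m ih =>
    rw [Wn, Wn, ← norm_adjMap (ℓ := q) φ (b (Fin.last m)), ih (adjMap q φ (b (Fin.last m)))]
    simp only [map_mul, map_sub, adjMap_algebraMap, adjMap_root]

/-- PROOF: as `Phi_mem` in `NIPFields/Phi.lean` (`norm_adj_mem`, `norm_mem_NSR`). -/
theorem Wn_mem (m : ℕ) {R : Type u} [CommRing R] [Nontrivial R] (lam b : Fin m → R) (u : R)
    (j : Fin m) : Wn q m R lam b u ∈ NSR q (b j) := by
  induction m generalizing R with
  | zero => exact j.elim0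
  | succ m ih =>
    rw [Wn]
    refine Fin.lastCases ?_ (fun j => ?_) j
    · exact norm_adj_mem _ _
    · exact norm_mem_NSR _ _ _ (ih _ _ _ j)

end Pool.Agent.NFF
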