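import Pool.Agent.NFF.Split

/-!
# The iterated norm is a product (package NFF-WnProd)
-/

set_option autoImplicit false

namespace Pool.Agent.NFF

open Polynomial Pool.Agent.NIPFields

universe u

variable {q : ℕ} [NeZero q]

/-- PROOF. Induction on `m`. `Wn q (m + 1) R lam b u = norm w`, `w` the iterated norm over
`Adj q (b (last m))`. `norm_split` for `b (last m)`, `s (last m)`; `evr (r i) w` is, by `Wn_map` for
`φ = evr …` (`evr_algebraMap`, `evr_root`), `Wn q m R (lam ∘ castSucc) (b ∘ castSucc)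
(u - lam (last m) * (ζ ^ i * s (last m)))`, to which the induction hypothesis applies. Then
`Fin m → Fin q` times `Fin q` is `Fin (m + 1) → Fin q` (`Fin.snocEquiv` or `Fin.consEquiv`;
`Fintype.prod_prod_type`, `Fin.sum_univ_castSucc`). -/
theorem Wn_prod (m : ℕ) {R : Type u} [CommRing R] [IsDomain R] (ζ : R) (hζ : IsPrimitiveRoot ζ q)
    (lam b s : Fin m → R) (u : R) (hs0 : ∀ j, s j ≠ 0) (hs : ∀ j, s j ^ q = b j) :
    Wn q m R lam b u = ∏ e : Fin m → Fin q, (u - ∑ j, lam j * (ζ ^ (e j : ℕ) * s j)) := by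
  induction m generalizing u with
  | zero => simp [Wn]
  | succ m ih =>
    have hs' : ∀ i : Fin q, (ζ ^ (i : ℕ) * s (Fin.last m)) ^ q = b (Fin.last m) := fun i => by
      rw [mul_pow, ← pow_mul, mul_comm (i : ℕ) q, pow_mul, hζ.pow_eq_one, one_pow, one_mul, hs]
    rw [Wn, norm_split (b (Fin.last m)) (s (Fin.last m)) ζ hζ (hs0 _) hs',
      ← (Fin.snocEquiv (fun _ => Fin q)).prod_comp, Fintype.prod_prod_type]
    refine Finset.prod_congr rfl fun i _ => ?_
    rw [Wn_map]
    simp only [map_sub, map_mul, evr_algebraMap, evr_root]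
    rw [ih (fun j => lam j.castSucc) (fun j => b j.castSucc) (fun j => s j.castSucc) _
      (fun j => hs0 _) (fun j => hs _)]
    refine Finset.prod_congr rfl fun e _ => ?_
    rw [Fin.sum_univ_castSucc]
    simp only [Fin.snocEquiv_apply, Fin.snoc_castSucc, Fin.snoc_last]
    ring

end Pool.Agent.NFF
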